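import Mathlib

set_option autoImplicit false

namespace Pool.Agent.H66.Edm

variable {F R : Type} [Field F] [Ring R] [Algebra F R]

/-- the iterated commutator `[x₁, [x₂, ... [x_k, y]]]` -/
def iterComm (xs : List R) (y : R) : R := xs.foldr (fun x z => x * z - z * x) y

/-- `V` is closed under `(m+1)`-fold commutators `[x₁, [x₂, ... [x_m, y]]]` -/
def CommClosed (m : ℕ) (V : Submodule F R) : Prop :=
  ∀ xs : List R, xs.length = m → (∀ x ∈ xs, x ∈ V) → ∀ y ∈ V, iterComm xs y ∈ V

/-- span of the `(k+1)`-fold commutators -/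
def cs (V : Submodule F R) : ℕ → Submodule F R
  | 0 => V
  | k + 1 => Submodule.span F {z | ∃ x ∈ V, ∃ y ∈ cs V k, z = x * y - y * x}

lemma cs_comm_left (V : Submodule F R) (k : ℕ) (x : R) (hx : x ∈ V) (y : R) (hy : y ∈ cs V k) :
    x * y - y * x ∈ cs V (k + 1) := Submodule.subset_span ⟨x, hx, y, hy, rfl⟩

lemma cs_comm (V : Submodule F R) (k : ℕ) : ∀ (l : ℕ), ∀ y ∈ cs V k, ∀ z ∈ cs V l,
    y * z - z * y ∈ cs V (k + l + 1) := by
  induction k with
  | zero =>
    intro l y hy z hz
    rw [zero_add]
    exact cs_comm_left V l y hy z hz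
  | succ k ih =>
    intro l y hy z hz
    change y ∈ Submodule.span F _ at hy
    induction hy using Submodule.span_induction with
    | zero => simp
    | add a b _ _ ha hb =>
      have : (a + b) * z - z * (a + b) = (a * z - z * a) + (b * z - z * b) := by noncomm_ring
      rw [this]
      exact add_mem ha hb
    | smul c a _ ha =>
      have : (c • a) * z - z * (c • a) = c • (a * z - z * a) := by
        rw [smul_mul_assoc, mul_smul_comm, smul_sub]
      rw [this]
      exact Submodule.smul_mem _ c ha
    | mem a ha =>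
      obtain ⟨x, hx, w, hw, rfl⟩ := ha
      have h1 : (x * w - w * x) * z - z * (x * w - w * x) =
          (x * (w * z - z * w) - (w * z - z * w) * x) -
            (w * (x * z - z * x) - (x * z - z * x) * w) := by noncomm_ring
      rw [h1]
      have e1 : k + 1 + l + 1 = (k + l + 1) + 1 := by omega
      refine sub_mem ?_ ?_
      · rw [e1]
        exact cs_comm_left V _ x hx _ (ih l w hw z hz)
      · have h2 := ih (l + 1) w hw _ (cs_comm_left V l x hx z hz)
        have e2 : k + (l + 1) + 1 = k + 1 + l + 1 := by omega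
        rwa [e2] at h2

lemma cs_le_span (V : Submodule F R) (k : ℕ) :
    cs V k ≤ Submodule.span F {z | ∃ xs : List R, xs.length = k ∧ (∀ x ∈ xs, x ∈ V) ∧
      ∃ y ∈ V, z = iterComm xs y} := by
  induction k with
  | zero =>
    intro y hy
    exact Submodule.subset_span ⟨[], rfl, by simp, y, hy, rfl⟩
  | succ k ih =>
    change Submodule.span F _ ≤ _
    rw [Submodule.span_le]
    rintro _ ⟨x, hx, y, hy, rfl⟩
    have hy' := ih hy
    rw [SetLike.mem_coe]
    clear hy
    induction hy' using Submodule.span_induction with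
    | zero => simp
    | add a b _ _ ha hb =>
      have : x * (a + b) - (a + b) * x = (x * a - a * x) + (x * b - b * x) := by noncomm_ring
      rw [this]
      exact add_mem ha hb
    | smul c a _ ha =>
      have : x * (c • a) - (c • a) * x = c • (x * a - a * x) := by
        rw [smul_mul_assoc, mul_smul_comm, smul_sub]
      rw [this]
      exact Submodule.smul_mem _ c ha
    | mem a ha =>
      obtain ⟨xs, hxs, hxs', z, hz, rfl⟩ := ha
      refine Submodule.subset_span ⟨x :: xs, by simp [hxs], ?_, z, hz, rfl⟩
      intro w hw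
      rcases List.mem_cons.1 hw with h | h
      · rw [h]; exact hx
      · exact hxs' w h

lemma cs_le_of_commClosed {m : ℕ} {V : Submodule F R} (hV : CommClosed m V) : cs V m ≤ V := by
  refine (cs_le_span V m).trans ?_
  rw [Submodule.span_le]
  rintro _ ⟨xs, hxs, hxs', y, hy, rfl⟩
  exact hV xs hxs hxs' y hy

lemma cs_add_le {m : ℕ} {V : Submodule F R} (hV : CommClosed m V) (k : ℕ) :
    cs V (k + m) ≤ cs V k := by
  induction k with
  | zero => rw [zero_add]; exact cs_le_of_commClosed hV
  | succ k ih =>
    have e : k + 1 + m = (k + m) + 1 := by omega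
    rw [e]
    change Submodule.span F _ ≤ _
    rw [Submodule.span_le]
    rintro _ ⟨x, hx, y, hy, rfl⟩
    exact cs_comm_left V k x hx y (ih hy)

lemma cs_mul_le {m : ℕ} {V : Submodule F R} (hV : CommClosed m V) (j : ℕ) : cs V (j * m) ≤ V := by
  induction j with
  | zero => rw [zero_mul]; exact le_rfl
  | succ j ih =>
    rw [Nat.succ_mul]
    exact (cs_add_le hV _).trans ih

/-- a commutator-closed space is the degree one part of a graded family -/
theorem exists_family {m : ℕ} [NeZero m] (V : Submodule F R) (hV : CommClosed m V) :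
    ∃ g : ZMod m → Submodule F R, g 1 = V ∧
      ∀ i j, ∀ A ∈ g i, ∀ B ∈ g j, A * B - B * A ∈ g (i + j) := by
  classical
  let g : ZMod m → Submodule F R := fun i =>
    ⨆ k : {k : ℕ // ((k + 1 : ℕ) : ZMod m) = i}, cs V k.1
  refine ⟨g, le_antisymm ?_ ?_, ?_⟩
  · refine iSup_le ?_
    rintro ⟨k, hk⟩
    have h1 : ((k : ℕ) : ZMod m) = 0 := by
      push_cast at hk
      simpa using hk
    rw [ZMod.natCast_eq_zero_iff] at h1
    obtain ⟨j, rfl⟩ := h1
    change cs V (m * j) ≤ V
    rw [mul_comm]
    exact cs_mul_le hV j
  · exact le_iSup (fun k : {k : ℕ // ((k + 1 : ℕ) : ZMod m) = 1} => cs V k.1) ⟨0, by simp⟩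
  · intro i j A hA B hB
    induction hA using Submodule.iSup_induction' with
    | zero => simp
    | add a b _ _ ha hb =>
      have : (a + b) * B - B * (a + b) = (a * B - B * a) + (b * B - B * b) := by noncomm_ring
      rw [this]
      exact add_mem ha hb
    | mem k a ha =>
      induction hB using Submodule.iSup_induction' with
      | zero => simp
      | add b c _ _ hb hc =>
        have : a * (b + c) - (b + c) * a = (a * b - b * a) + (a * c - c * a) := by noncomm_ring
        rw [this]
        exact add_mem hb hc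
      | mem l b hb =>
        obtain ⟨k, hk⟩ := k
        obtain ⟨l, hl⟩ := l
        refine Submodule.mem_iSup_of_mem (⟨k + l + 1, ?_⟩ :
          {k : ℕ // ((k + 1 : ℕ) : ZMod m) = i + j}) (cs_comm V k l a ha b hb)
        rw [← hk, ← hl]
        push_cast
        ring

end Pool.Agent.H66.Edm
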