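import Pool.Agent.H66.Edm.Fit

set_option autoImplicit false

namespace Pool.Agent.H66.Edm

open Module LieModule

attribute [local instance 100] LieRing.ofAssociativeRing

variable {F E : Type} [Field F] [AddCommGroup E] [Module F E] [FiniteDimensional F E]

/-- existence of certificates for graded families -/
theorem exists_cert [CharZero F] {m : ℕ} [NeZero m] (g : ZMod m → Submodule F (Module.End F E))
    (hbr : ∀ i j, ∀ A ∈ g i, ∀ B ∈ g j, A * B - B * A ∈ g (i + j))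
    (hsing : ∀ x ∈ g 1, LinearMap.ker x ≠ ⊥) :
    ∃ a ∈ g 1, ∃ W ≤ g 1, (∀ x ∈ g 1, ∃ κ ∈ g 0, ∃ w ∈ W, x = κ * a - a * κ + w) ∧
      ∃ (k : ℕ) (S : ℕ → Submodule F E), S 0 = ⊥ ∧ S k ≠ ⊥ ∧
        (∀ j, ∀ v ∈ S j, a v ∈ S j) ∧ (∀ w ∈ W, ∀ j, ∀ v ∈ S j, w v ∈ S j) ∧
        (∀ w ∈ W, ∀ j, ∀ v ∈ S (j + 1), w v ∈ S j) ∧
        (∀ v ∈ S k, (a ^ finrank F E) v = 0) := by
  classical
  have hnorm : ∀ κ ∈ g 0, ∀ y ∈ g 1, κ * y - y * κ ∈ g 1 := by
    intro κ hκ y hy
    have := hbr 0 1 κ hκ y hy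
    rwa [zero_add] at this
  -- choose a with the smallest generalised kernel
  obtain ⟨a, ha, hmin⟩ : ∃ a ∈ g 1, ∀ x ∈ g 1, finrank F (gker a) ≤ finrank F (gker x) := by
    have hne : ({n | ∃ x ∈ g 1, finrank F (gker x) = n} : Set ℕ).Nonempty :=
      ⟨_, 0, zero_mem _, rfl⟩
    obtain ⟨a, ha, ha'⟩ := Nat.sInf_mem hne
    refine ⟨a, ha, fun x hx => ?_⟩
    rw [ha']
    exact Nat.sInf_le ⟨x, hx, rfl⟩
  obtain ⟨U, hU⟩ : ∃ U, U = gker a := ⟨_, rfl⟩
  have hUne : U ≠ ⊥ := by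
    intro h
    apply hsing a ha
    rw [eq_bot_iff, ← h, hU]
    intro v hv
    rw [mem_gker]
    exact ⟨1, by simpa using hv⟩
  have haP := self_mem_gad (F := F) a
  -- the induced family on U
  let h : ZMod m → Submodule F (Module.End F U) := fun i =>
    { carrier := {B | ∃ A ∈ g i ⊓ gad a, ∀ u : U, ((B u : U) : E) = A u}
      add_mem' := by
        rintro B B' ⟨A, hA, hAB⟩ ⟨A', hA', hAB'⟩
        exact ⟨A + A', add_mem hA hA', fun u => by simp [hAB, hAB']⟩
      zero_mem' := ⟨0, zero_mem _, fun u => by simp⟩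
      smul_mem' := by
        rintro c B ⟨A, hA, hAB⟩
        exact ⟨c • A, Submodule.smul_mem _ c hA, fun u => by simp [hAB]⟩ }
  have hmem : ∀ i B, B ∈ h i ↔ ∃ A ∈ g i ⊓ gad a, ∀ u : U, ((B u : U) : E) = A u :=
    fun i B => Iff.rfl
  have hexists : ∀ i, ∀ A ∈ g i ⊓ gad a, ∃ B ∈ h i, ∀ u : U, ((B u : U) : E) = A u := by
    intro i A hA
    have hAU : ∀ u ∈ U, A u ∈ U := by
      rw [hU]; exact fun u hu => gad_apply hA.2 hu
    exact ⟨A.restrict hAU, ⟨A, hA, fun u => rfl⟩, fun u => rfl⟩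
  have hhbr : ∀ i j, ∀ A ∈ h i, ∀ B ∈ h j, A * B - B * A ∈ h (i + j) := by
    rintro i j A ⟨A', hA', hAA⟩ B ⟨B', hB', hBB⟩
    refine ⟨A' * B' - B' * A', ⟨hbr i j A' hA'.1 B' hB'.1, gad_lie hA'.2 hB'.2⟩, fun u => ?_⟩
    simp only [LinearMap.sub_apply, Module.End.mul_apply, Submodule.coe_sub, hAA, hBB]
  have hhnil : ∀ x ∈ h 1, IsNilpotent x := by
    rintro B ⟨y, hy, hyB⟩
    by_contra hcon
    obtain ⟨t, ht⟩ := exists_gker_lt a y hy.2 U hU B hyB hcon
    have := hmin (a + t • y) (add_mem ha (Submodule.smul_mem _ t hy.1))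
    rw [← hU] at this
    omega
  obtain ⟨b, ⟨b', hb', hbb⟩, W, hW, hdec, k, S, hS0, hSk, hSst, hSW⟩ := nil_family h hhbr hhnil
  -- the restriction of a
  obtain ⟨aU, haU, haU'⟩ := hexists 1 a ⟨ha, haP⟩
  have hslice := slice g hbr a ha
  -- genericity
  have hfin1 := finite_not_decomp (g 0) (g 1) (g 1 ⊓ gad a) hnorm b' a hb'.1 ha hslice
  have hhnorm : ∀ κ ∈ h 0, ∀ y ∈ h 1, κ * y - y * κ ∈ h 1 := by
    intro κ hκ y hy
    have := hhbr 0 1 κ hκ y hy
    rwa [zero_add] at this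
  have hfin2 := finite_not_decomp (h 0) (h 1) W hhnorm aU b haU ⟨b', hb', hbb⟩ hdec
  have hfin3 := hfin1.image (fun t : F => t⁻¹)
  obtain ⟨s, hs⟩ := ((hfin3.union hfin2).union (Set.finite_singleton (0 : F))).infinite_compl.nonempty
  simp only [Set.mem_compl_iff, Set.mem_union, Set.mem_singleton_iff, not_or] at hs
  obtain ⟨⟨hs1, hs2⟩, hs3⟩ := hs
  set t := s⁻¹ with ht
  have ht0 : t ≠ 0 := inv_ne_zero hs3
  have hd1 : ∀ x ∈ g 1, ∃ κ ∈ g 0, ∃ w ∈ g 1 ⊓ gad a,
      x = κ * (a + t • b') - (a + t • b') * κ + w := by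
    by_contra hcon
    exact hs1 ⟨t, hcon, inv_inv s⟩
  have hd2 : ∀ x ∈ h 1, ∃ κ ∈ h 0, ∃ w ∈ W,
      x = κ * (b + s • aU) - (b + s • aU) * κ + w := by
    by_contra hcon
    exact hs2 hcon
  set c := a + t • b' with hc
  have hcg : c ∈ g 1 := add_mem ha (Submodule.smul_mem _ t hb'.1)
  have hcP : c ∈ gad a := add_mem haP (Submodule.smul_mem _ t hb'.2)
  -- restriction of c to U
  set cU := aU + t • b with hcU
  have hcU1 : cU ∈ h 1 := add_mem haU (Submodule.smul_mem _ t ⟨b', hb', hbb⟩)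
  have hcUc : ∀ u : U, ((cU u : U) : E) = c u := by
    intro u
    simp [hcU, hc, haU', hbb]
  have hbs : b + s • aU = s • cU := by
    rw [hcU, smul_add, smul_smul, ht, mul_inv_cancel₀ hs3, one_smul, add_comm]
  -- the subspace W
  let W' : Submodule F (Module.End F E) :=
    { carrier := {w | w ∈ g 1 ⊓ gad a ∧ ∃ B ∈ W, ∀ u : U, ((B u : U) : E) = w u}
      add_mem' := by
        rintro x y ⟨hx, B, hB, hBx⟩ ⟨hy, B', hB', hBy⟩
        exact ⟨add_mem hx hy, B + B', add_mem hB hB', fun u => by simp [hBx, hBy]⟩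
      zero_mem' := ⟨zero_mem _, 0, zero_mem _, fun u => by simp⟩
      smul_mem' := by
        rintro r x ⟨hx, B, hB, hBx⟩
        exact ⟨Submodule.smul_mem _ r hx, r • B, Submodule.smul_mem _ r hB,
          fun u => by simp [hBx]⟩ }
  refine ⟨c, hcg, W', fun w hw => hw.1.1, ?_, k, fun j => (S j).map U.subtype, ?_, ?_, ?_, ?_, ?_,
    ?_⟩
  · intro x hx
    obtain ⟨κ, hκ, u, hu, hxu⟩ := hd1 x hx
    obtain ⟨B, hB, hBu⟩ := hexists 1 u hu
    obtain ⟨κ₁, ⟨κ₂, hκ₂, hκκ⟩, w, hw, hBw⟩ := hd2 B hB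
    refine ⟨κ + s • κ₂, add_mem hκ (Submodule.smul_mem _ s hκ₂.1),
      u - ((s • κ₂) * c - c * (s • κ₂)), ⟨⟨?_, ?_⟩, w, hw, ?_⟩, ?_⟩
    · exact sub_mem hu.1 (hnorm _ (Submodule.smul_mem _ s hκ₂.1) _ hcg)
    · exact sub_mem hu.2 (gad_lie (Submodule.smul_mem _ s hκ₂.2) hcP)
    · intro v
      have h1 : w = B - (κ₁ * (b + s • aU) - (b + s • aU) * κ₁) := by
        rw [hBw]; abel
      rw [h1, hbs]
      simp only [LinearMap.sub_apply, Module.End.mul_apply, LinearMap.smul_apply,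
        Submodule.coe_sub, Submodule.coe_smul, hBu, hκκ, hcUc, map_smul]
    · rw [hxu]
      noncomm_ring
  · simp only [hS0, Submodule.map_bot]
  · simp only [hSk, Submodule.map_top, Submodule.range_subtype]
    exact hUne
  · rintro j _ ⟨v, hv, rfl⟩
    refine ⟨cU v, hSst cU hcU1 j v hv, ?_⟩
    exact hcUc v
  · rintro w ⟨hw, B, hB, hBw⟩ j _ ⟨v, hv, rfl⟩
    exact ⟨B v, hSst B (hW hB) j v hv, hBw v⟩
  · rintro w ⟨hw, B, hB, hBw⟩ j _ ⟨v, hv, rfl⟩
    exact ⟨B v, hSW B hB j v hv, hBw v⟩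
  · rintro _ ⟨v, hv, rfl⟩
    have h1 : ∀ k : ℕ, (c ^ k) (v : E) = (((cU ^ k) v : U) : E) := by
      intro k
      induction k with
      | zero => rfl
      | succ k ih =>
        rw [pow_succ', Module.End.mul_apply, ih, ← hcUc, pow_succ', Module.End.mul_apply]
    have h2 : (v : E) ∈ gker c := by
      rw [mem_gker]
      obtain ⟨p, hp⟩ := hhnil cU hcU1
      exact ⟨p, by rw [h1, hp]; rfl⟩
    exact mem_gker'.1 h2

/-- shortening the chain of subspaces -/
lemma shorten (a : Module.End F E) (W : Submodule F (Module.End F E)) (k : ℕ)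
    (S : ℕ → Submodule F E) (hS0 : S 0 = ⊥) (ha : ∀ j, ∀ v ∈ S j, a v ∈ S j)
    (hW : ∀ w ∈ W, ∀ j, ∀ v ∈ S j, w v ∈ S j)
    (hW' : ∀ w ∈ W, ∀ j, ∀ v ∈ S (j + 1), w v ∈ S j) :
    ∃ U : ℕ → Submodule F E, U 0 = ⊥ ∧ U (finrank F E) = S k ∧ Monotone U ∧
      (∀ j, ∀ v ∈ U j, a v ∈ U j) ∧ (∀ w ∈ W, ∀ j, ∀ v ∈ U (j + 1), w v ∈ U j) := by
  classical
  -- smallest a-stable subspace containing W T
  let Z : Submodule F E → Set (Submodule F E) := fun T =>
    {Y | (∀ v ∈ Y, a v ∈ Y) ∧ ∀ w ∈ W, ∀ v ∈ T, w v ∈ Y}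
  let nx : Submodule F E → Submodule F E := fun T => sInf (Z T)
  have hnxa : ∀ T, ∀ v ∈ nx T, a v ∈ nx T := by
    intro T v hv
    rw [Submodule.mem_sInf] at hv ⊢
    exact fun Y hY => hY.1 v (hv Y hY)
  have hnxW : ∀ T, ∀ w ∈ W, ∀ v ∈ T, w v ∈ nx T := by
    intro T w hw v hv
    rw [Submodule.mem_sInf]
    exact fun Y hY => hY.2 w hw v hv
  have hnxle : ∀ T Y, Y ∈ Z T → nx T ≤ Y := fun T Y hY => sInf_le hY
  let T : ℕ → Submodule F E := fun i => nx^[i] (S k)
  have hT0 : T 0 = S k := rfl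
  have hTs : ∀ i, T (i + 1) = nx (T i) := fun i => Function.iterate_succ_apply' nx i (S k)
  have hTa : ∀ i, ∀ v ∈ T i, a v ∈ T i := by
    intro i
    cases i with
    | zero => exact ha k
    | succ i => rw [hTs]; exact hnxa _
  have hTle : ∀ i, T (i + 1) ≤ T i := by
    intro i
    induction i with
    | zero =>
      rw [hTs]
      exact hnxle _ _ ⟨ha k, fun w hw v hv => hW w hw k v hv⟩
    | succ i ih =>
      rw [hTs (i + 1)]
      refine hnxle _ _ ⟨hTa _, fun w hw v hv => ?_⟩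
      rw [hTs i]
      exact hnxW _ w hw v (ih hv)
  have hTS : ∀ i, i ≤ k → T i ≤ S (k - i) := by
    intro i
    induction i with
    | zero => intro _; exact le_rfl
    | succ i ih =>
      intro hi
      rw [hTs]
      refine hnxle _ _ ⟨ha _, fun w hw v hv => ?_⟩
      have h1 := ih (by omega) hv
      have h2 : k - i = (k - (i + 1)) + 1 := by omega
      rw [h2] at h1
      exact hW' w hw _ v h1
  have hTk : T k = ⊥ := by
    have := hTS k le_rfl
    rw [Nat.sub_self, hS0] at this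
    exact le_bot_iff.1 this
  have hTanti : Antitone T := antitone_nat_of_succ_le hTle
  have hdrop : ∀ i, T i = ⊥ ∨ finrank F (T i) + i ≤ finrank F (S k) := by
    intro i
    induction i with
    | zero => right; exact le_rfl
    | succ i ih =>
      by_cases hbot : T (i + 1) = ⊥
      · left; exact hbot
      right
      have hlt : T (i + 1) < T i := by
        refine lt_of_le_of_ne (hTle i) fun heq => hbot ?_
        have hconst : ∀ j, T (i + j) = T i := by
          intro j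
          induction j with
          | zero => rfl
          | succ j ihj => rw [← add_assoc, hTs, ihj, ← hTs, heq]
        have h1 := hconst k
        have h2 : T (i + k) = ⊥ := le_bot_iff.1 (hTk ▸ hTanti (by omega : k ≤ i + k))
        rw [heq, ← h1, h2]
      have h3 := Submodule.finrank_lt_finrank_of_lt hlt
      rcases ih with h | h
      · exfalso
        rw [h] at hlt
        exact not_lt_bot hlt
      · omega
  have hTn : T (finrank F E) = ⊥ := by
    rcases hdrop (finrank F E) with h | h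
    · exact h
    · have h1 := Submodule.finrank_le (S k)
      have h2 : finrank F (T (finrank F E)) = 0 := by omega
      exact Submodule.finrank_eq_zero.1 h2
  refine ⟨fun j => T (finrank F E - j), ?_, ?_, ?_, fun j => hTa _, ?_⟩
  · simpa using hTn
  · simp only [Nat.sub_self]
    exact hT0
  · intro i j hij
    exact hTanti (by omega)
  · intro w hw j v hv
    simp only at hv ⊢
    rcases Nat.lt_or_ge j (finrank F E) with hj | hj
    · have h1 : finrank F E - j = (finrank F E - (j + 1)) + 1 := by omega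
      rw [h1, hTs]
      exact hnxW _ w hw v hv
    · have h1 : finrank F E - (j + 1) = finrank F E - j := by omega
      rw [h1] at hv
      have h2 : finrank F E - j = 0 := by omega
      rw [h2] at hv ⊢
      exact hW w hw k v hv

end Pool.Agent.H66.Edm
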