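import Mathlib
import Pool.Agent.H20.Edm.Minor
import Pool.Agent.H21.Conn.Minors
import Pool.Agent.H21.Conn.Order

set_option autoImplicit false

namespace Pool.Agent.H66.Edm

open MvPolynomial Pool.Agent.H21.Conn Pool.Agent.H20.Edm

/-- the generic element `∑ xᵢ Aᵢ` of the span of `A₁, ..., A_N` -/
noncomputable def genericMatrix {F : Type} [Field F] {N n : ℕ}
    (A : Fin N → Matrix (Fin n) (Fin n) F) :
    Matrix (Fin n) (Fin n) (MvPolynomial (Fin N) F) :=
  Matrix.of fun p q => ∑ i, X i * C (A i p q)

lemma rank_lt_of_det_eq_zero {F : Type} [Field F] {n : ℕ} (M : Matrix (Fin n) (Fin n) F)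
    (h : M.det = 0) : M.rank < n := by
  obtain ⟨v, hv, hv'⟩ := Matrix.exists_mulVec_eq_zero_iff.2 h
  have h1 := LinearMap.finrank_range_add_finrank_ker M.mulVecLin
  rw [Module.finrank_fin_fun] at h1
  have h2 : 0 < Module.finrank F (LinearMap.ker M.mulVecLin) := by
    have : Nontrivial (LinearMap.ker M.mulVecLin) := by
      rw [Submodule.nontrivial_iff_ne_bot]
      intro h3
      apply hv
      have h4 : v ∈ LinearMap.ker M.mulVecLin := hv'
      rw [h3] at h4
      simpa using h4
    exact Module.finrank_pos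
  have h3 : M.rank = Module.finrank F (LinearMap.range M.mulVecLin) := rfl
  omega

/-- soundness of slices: if `V = [normaliser of V, a] + W` and `a + W` is singular, the generic
matrix has a rank smaller than `n` -/
theorem sound {F : Type} [Field F] [CharZero F] {N n : ℕ} (A : Fin N → Matrix (Fin n) (Fin n) F)
    (a : Matrix (Fin n) (Fin n) F) (ha : a ∈ Submodule.span F (Set.range A))
    (W : Submodule F (Matrix (Fin n) (Fin n) F))
    (hdet : ∀ w ∈ W, (a + w).det = 0)
    (hdec : ∀ x ∈ Submodule.span F (Set.range A), ∃ K : Matrix (Fin n) (Fin n) F,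
      (∀ y ∈ Submodule.span F (Set.range A), K * y - y * K ∈ Submodule.span F (Set.range A)) ∧
      ∃ w ∈ W, x = (K * a - a * K) + w) :
    ((genericMatrix A).map (algebraMap (MvPolynomial (Fin N) F)
      (FractionRing (MvPolynomial (Fin N) F)))).rank < n := by
  classical
  by_contra hcon
  push Not at hcon
  obtain ⟨f₀, g₀, hfg₀⟩ := (sym_minor_iff (genericMatrix A) n).1 hcon
  apply hfg₀
  set V := Submodule.span F (Set.range A) with hV
  let ev : (Fin N → F) →ₗ[F] Matrix (Fin n) (Fin n) F :=
    ∑ i, (LinearMap.proj i : (Fin N → F) →ₗ[F] F).smulRight (A i)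
  have hev : ∀ v, ev v = ∑ i, v i • A i := by
    intro v
    simp [ev]
  have hevV : ∀ v, ev v ∈ V := by
    intro v
    rw [hev]
    exact Submodule.sum_mem _ fun i _ => Submodule.smul_mem _ _ (Submodule.subset_span ⟨i, rfl⟩)
  have hevsurj : ∀ x ∈ V, ∃ v, ev v = x := by
    intro x hx
    obtain ⟨v, hv⟩ := (Submodule.mem_span_range_iff_exists_fun F).1 hx
    exact ⟨v, by rw [hev, hv]⟩
  have heval : ∀ v, (genericMatrix A).map (eval v) = ev v := by
    intro v
    rw [hev]
    ext p q
    simp [genericMatrix, Matrix.sum_apply]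
  obtain ⟨y₀, hy₀⟩ := hevsurj a ha
  let ι := {K : Matrix (Fin n) (Fin n) F // ∀ y ∈ V, K * y - y * K ∈ V}
  have hc : ∀ (K : ι) (i : Fin N), ∃ c : Fin N → F, ev c = K.1 * A i - A i * K.1 := fun K i =>
    hevsurj _ (K.2 _ (Submodule.subset_span ⟨i, rfl⟩))
  choose c hc using hc
  let ξ : ι → Fin N → MvPolynomial (Fin N) F := fun K j => ∑ i, X i * C (c K i j)
  have hξev : ∀ (K : ι) (y : Fin N → F), ev (fun j => eval y (ξ K j)) = K.1 * ev y - ev y * K.1 := by
    intro K y
    have h1 : (fun j => eval y (ξ K j)) = ∑ i, y i • c K i := by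
      ext j
      simp [ξ, Finset.sum_apply]
    rw [h1, map_sum]
    simp only [map_smul, hc]
    rw [hev, Finset.mul_sum, Finset.sum_mul, ← Finset.sum_sub_distrib]
    refine Finset.sum_congr rfl fun i _ => ?_
    rw [smul_sub, mul_smul_comm, smul_mul_assoc]
  have hcore := core (minorIdeal n (genericMatrix A)) (W.comap ev) y₀ ?_ ξ ?_ ?_
  · have := det_submatrix_mem (genericMatrix A) f₀ g₀
    rw [hcore] at this
    simpa using this
  · intro p hp u hu
    unfold minorIdeal at hp
    induction hp using Submodule.span_induction with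
    | zero => simp
    | add x y _ _ hx hy => rw [map_add, hx, hy, add_zero]
    | smul b x _ hx => rw [smul_eq_mul, map_mul, hx, mul_zero]
    | mem x hx =>
      obtain ⟨f, g, rfl⟩ := hx
      rw [← eval_minor, heval, map_add, hy₀]
      by_contra hne
      have h1 := le_rank_of_minor _ f g hne
      have h2 := rank_lt_of_det_eq_zero _ (hdet (ev u) hu)
      omega
  · intro K p hp
    obtain ⟨KM, hKM⟩ : ∃ KM : Matrix (Fin n) (Fin n) (MvPolynomial (Fin N) F),
        ∀ p q, KM p q = C (K.1 p q) := ⟨K.1.map C, fun _ _ => rfl⟩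
    refine derivation_minorIdeal (vf (ξ K)) (genericMatrix A) KM (-KM) ?_ hp
    intro p q
    rw [vf_apply]
    have h1 : ∀ j, pderiv j (genericMatrix A p q) = C (A j p q) := by
      intro j
      simp only [genericMatrix, Matrix.of_apply, map_sum, Derivation.leibniz, pderiv_C, smul_zero,
        zero_add]
      rw [Finset.sum_eq_single j]
      · simp
      · intro b _ hb
        rw [pderiv_X_of_ne hb]
        simp
      · simp
    simp only [h1]
    -- compare after evaluation
    apply MvPolynomial.funext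
    intro y
    have h2 := congrFun (congrFun (hξev K y) p) q
    rw [hev] at h2
    have h3 : eval y (∑ j, ξ K j * C (A j p q)) = (∑ j, eval y (ξ K j) • A j) p q := by
      simp [Matrix.sum_apply]
    rw [h3, h2]
    have h4 : eval y ((KM * genericMatrix A + genericMatrix A * -KM) p q) =
        (K.1 * (genericMatrix A).map (eval y) - (genericMatrix A).map (eval y) * K.1) p q := by
      simp only [Matrix.add_apply, Matrix.sub_apply, Matrix.mul_apply, map_add, map_sum, map_mul,
        Matrix.map_apply, Matrix.neg_apply, map_neg, hKM, eval_C, mul_neg]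
      ring
    rw [h4, heval, hev]
  · rw [eq_top_iff]
    intro v _
    obtain ⟨K, hK, w, hw, hx⟩ := hdec (ev v) (hevV v)
    have h1 : v = (fun j => eval y₀ (ξ ⟨K, hK⟩ j)) + (v - fun j => eval y₀ (ξ ⟨K, hK⟩ j)) := by abel
    rw [h1]
    refine Submodule.add_mem_sup (Submodule.subset_span ⟨⟨K, hK⟩, rfl⟩) ?_
    rw [Submodule.mem_comap, map_sub, hξev, hy₀, hx, add_sub_cancel_left]
    exact hw

end Pool.Agent.H66.Edm
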