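import Pool.Agent.H66.Edm.Hat

set_option autoImplicit false

namespace Pool.Agent.H66.Edm

open Module LieModule

attribute [local instance 100] LieRing.ofAssociativeRing

section generic

variable {F Z X : Type} [Field F] [AddCommGroup Z] [Module F Z] [AddCommGroup X] [Module F X]
  [FiniteDimensional F X]

/-- if `range β ≤ range α` then `range (α + s β) = range α` for all but finitely many `s` -/
lemma finite_not_range_le (α β : Z →ₗ[F] X) (h : LinearMap.range β ≤ LinearMap.range α) :
    {s : F | ¬ LinearMap.range α ≤ LinearMap.range (α + s • β)}.Finite := by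
  classical
  let w := finBasis F (LinearMap.range α)
  choose u hu using fun i => LinearMap.mem_range.1 (w i).2
  have hpoly : ∀ i, IsPoly fun s : F => α (u i) + s • β (u i) := fun i =>
    (IsPoly.const _).add (IsPoly.const _).smul
  have h0 : LinearIndependent F fun i => α (u i) + (0 : F) • β (u i) := by
    have : (fun i => α (u i) + (0 : F) • β (u i)) = fun i => ((w i : LinearMap.range α) : X) := by
      ext i
      rw [zero_smul, add_zero, hu]
    rw [this]
    exact w.linearIndependent.map' (Submodule.subtype _) (Submodule.ker_subtype _)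
  refine (finite_not_linearIndependent hpoly h0).subset ?_
  intro s hs
  rw [Set.mem_ofPred_eq] at hs ⊢
  intro hcon
  apply hs
  have hle : LinearMap.range (α + s • β) ≤ LinearMap.range α := by
    rintro _ ⟨z, rfl⟩
    rw [LinearMap.add_apply, LinearMap.smul_apply]
    exact add_mem ⟨z, rfl⟩ (Submodule.smul_mem _ _ (h ⟨z, rfl⟩))
  have h1 : LinearIndependent F fun i => (⟨α (u i) + s • β (u i), ⟨u i, rfl⟩⟩ :
      LinearMap.range (α + s • β)) := by
    apply LinearIndependent.of_comp (Submodule.subtype _)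
    exact hcon
  have h2 := h1.fintype_card_le_finrank
  rw [Fintype.card_fin] at h2
  exact (Submodule.eq_of_le_of_finrank_le hle h2).ge

end generic

/-- genericity of a decomposition `V = [g₀, b] + W` -/
lemma finite_not_decomp {F E : Type} [Field F] [AddCommGroup E] [Module F E]
    [FiniteDimensional F E] (g₀ V W : Submodule F (Module.End F E))
    (hg : ∀ κ ∈ g₀, ∀ y ∈ V, κ * y - y * κ ∈ V) (a b : Module.End F E) (ha : a ∈ V) (hb : b ∈ V)
    (hdec : ∀ x ∈ V, ∃ κ ∈ g₀, ∃ w ∈ W, x = κ * b - b * κ + w) :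
    {s : F | ¬ ∀ x ∈ V, ∃ κ ∈ g₀, ∃ w ∈ W,
      x = κ * (b + s • a) - (b + s • a) * κ + w}.Finite := by
  classical
  let br : Module.End F E → g₀ →ₗ[F] (Module.End F E ⧸ W) := fun c =>
    W.mkQ ∘ₗ ((LinearMap.mulRight F c - LinearMap.mulLeft F c) ∘ₗ g₀.subtype)
  have hbr : ∀ c (κ : g₀), br c κ = W.mkQ ((κ : Module.End F E) * c - c * κ) := by
    intro c κ
    simp [br]
  have hadd : ∀ s : F, br b + s • br a = br (b + s • a) := by
    intro s
    ext1 κ
    rw [LinearMap.add_apply, LinearMap.smul_apply, hbr, hbr, hbr, ← map_smul, ← map_add]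
    congr 1
    rw [mul_add, add_mul, mul_smul_comm, smul_mul_assoc, smul_sub]
    abel
  have hVle : ∀ x ∈ V, W.mkQ x ∈ LinearMap.range (br b) := by
    intro x hx
    obtain ⟨κ, hκ, w, hw, rfl⟩ := hdec x hx
    refine ⟨⟨κ, hκ⟩, ?_⟩
    rw [hbr, map_add]
    have : W.mkQ w = 0 := by simpa using hw
    rw [this, add_zero]
  have hle : LinearMap.range (br a) ≤ LinearMap.range (br b) := by
    rintro _ ⟨κ, rfl⟩
    rw [hbr]
    exact hVle _ (hg κ κ.2 a ha)
  refine (finite_not_range_le (br b) (br a) hle).subset ?_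
  intro s hs
  rw [Set.mem_ofPred_eq] at hs ⊢
  intro hcon
  apply hs
  intro x hx
  have h1 := hcon (hVle x hx)
  rw [hadd] at h1
  obtain ⟨κ, hκ⟩ := h1
  rw [hbr] at hκ
  refine ⟨κ, κ.2, x - ((κ : Module.End F E) * (b + s • a) - (b + s • a) * κ), ?_, by abel⟩
  have h2 : W.mkQ (x - ((κ : Module.End F E) * (b + s • a) - (b + s • a) * κ)) = 0 := by
    rw [map_sub, hκ, sub_self]
  rwa [Submodule.mkQ_apply, Submodule.Quotient.mk_eq_zero] at h2

section fitting

variable {F E : Type} [Field F] [AddCommGroup E] [Module F E] [FiniteDimensional F E]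

/-- generalised kernel -/
def gker (a : Module.End F E) : Submodule F E := a.maxGenEigenspace 0

/-- elements killed by a power of `ad a` -/
def gad (a : Module.End F E) : Submodule F (Module.End F E) :=
  (toEnd F (Module.End F E) (Module.End F E) a).maxGenEigenspace 0

lemma mem_gker {a : Module.End F E} {v : E} : v ∈ gker a ↔ ∃ k : ℕ, (a ^ k) v = 0 := by
  simp [gker, Module.End.mem_maxGenEigenspace]

lemma mem_gker' {a : Module.End F E} {v : E} : v ∈ gker a ↔ (a ^ finrank F E) v = 0 := by
  have h := Module.End.maxGenEigenspace_eq_genEigenspace_finrank (K := F) a 0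
  rw [gker, h, Module.End.mem_genEigenspace_nat]
  simp

lemma mem_gad {a x : Module.End F E} :
    x ∈ gad a ↔ ∃ k : ℕ, ((toEnd F (Module.End F E) (Module.End F E) a) ^ k) x = 0 := by
  simp [gad, Module.End.mem_maxGenEigenspace]

lemma self_mem_gad (a : Module.End F E) : a ∈ gad a := by
  rw [mem_gad]
  refine ⟨1, ?_⟩
  simp

lemma gad_lie {a x y : Module.End F E} (hx : x ∈ gad a) (hy : y ∈ gad a) :
    x * y - y * x ∈ gad a := by
  have := LieModule.lie_mem_maxGenEigenspace_toEnd (R := F) (L := Module.End F E)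
    (M := Module.End F E) (x := a) (χ₁ := 0) (χ₂ := 0) hx hy
  rw [zero_add] at this
  exact this

lemma gad_apply {a x : Module.End F E} (hx : x ∈ gad a) {v : E} (hv : v ∈ gker a) :
    x v ∈ gker a := by
  have := LieModule.lie_mem_maxGenEigenspace_toEnd (R := F) (L := Module.End F E)
    (M := E) (x := a) (χ₁ := 0) (χ₂ := 0) hx hv
  rw [zero_add] at this
  exact this

/-- the slice property of the Fitting null component -/
lemma slice {m : ℕ} [NeZero m] (g : ZMod m → Submodule F (Module.End F E))
    (hbr : ∀ i j, ∀ A ∈ g i, ∀ B ∈ g j, A * B - B * A ∈ g (i + j)) (a : Module.End F E)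
    (ha : a ∈ g 1) :
    ∀ x ∈ g 1, ∃ κ ∈ g 0, ∃ u ∈ g 1 ⊓ gad a, x = κ * a - a * κ + u := by
  classical
  set D := toEnd F (Module.End F E) (Module.End F E) a with hD
  have hDapp : ∀ x, D x = a * x - x * a := fun x => rfl
  have hpow : ∀ (k : ℕ) (i : ZMod m), ∀ x ∈ g i, (D ^ k) x ∈ g (i + k) := by
    intro k
    induction k with
    | zero => intro i x hx; simpa using hx
    | succ k ih =>
      intro i x hx
      rw [pow_succ', Module.End.mul_apply, hDapp]
      have := hbr 1 (i + k) a ha _ (ih i x hx)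
      have e : (1 : ZMod m) + (i + k) = i + ((k + 1 : ℕ) : ZMod m) := by push_cast; ring
      rwa [e] at this
  have hm : ∀ x ∈ g 1, (D ^ m) x ∈ g 1 := by
    intro x hx
    have := hpow m 1 x hx
    simpa using this
  let φ : g 1 →ₗ[F] g 1 := (D ^ m).restrict hm
  have hφ : ∀ (N : ℕ) (x : g 1), (((φ ^ N) x : g 1) : Module.End F E) = (D ^ (m * N)) x := by
    intro N
    induction N with
    | zero => intro x; simp
    | succ N ih =>
      intro x
      rw [pow_succ', Module.End.mul_apply, mul_add, mul_one, add_comm, pow_add,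
        Module.End.mul_apply, ← ih]
      rfl
  obtain ⟨N, hN⟩ := Filter.eventually_atTop.1 (LinearMap.eventually_isCompl_ker_pow_range_pow φ)
  have hN1 := hN (N + 1) (by omega)
  intro x hx
  have hx' : (⟨x, hx⟩ : g 1) ∈ LinearMap.ker (φ ^ (N + 1)) ⊔ LinearMap.range (φ ^ (N + 1)) := by
    rw [hN1.sup_eq_top]
    exact Submodule.mem_top
  obtain ⟨u, hu, z, ⟨y, hy⟩, huz⟩ := Submodule.mem_sup.1 hx'
  have hmN : 0 < m * (N + 1) := Nat.mul_pos (Nat.pos_of_ne_zero (NeZero.ne m)) (by omega)
  obtain ⟨k, hk⟩ : ∃ k, m * (N + 1) = k + 1 := ⟨m * (N + 1) - 1, by omega⟩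
  refine ⟨- (D ^ k) y, ?_, u, ⟨u.2, ?_⟩, ?_⟩
  · apply neg_mem
    have h1 := hpow k 1 y y.2
    have e : (1 : ZMod m) + (k : ZMod m) = 0 := by
      have h2 : ((m * (N + 1) : ℕ) : ZMod m) = ((k + 1 : ℕ) : ZMod m) := by rw [hk]
      push_cast at h2
      rw [CharP.cast_eq_zero, zero_mul] at h2
      rw [add_comm, ← h2]
    rwa [e] at h1
  · change (u : Module.End F E) ∈ gad a
    rw [mem_gad]
    refine ⟨m * (N + 1), ?_⟩
    rw [← hD, ← hφ]
    have h1 : (φ ^ (N + 1)) u = 0 := hu
    rw [h1]
    rfl
  · have h1 : (u : Module.End F E) + z = x := congrArg Subtype.val huz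
    have h2 : (z : Module.End F E) = a * (D ^ k) y - (D ^ k) y * a := by
      rw [← hy, hφ, hk, pow_succ', Module.End.mul_apply, hDapp]
    rw [h2] at h1
    rw [← h1]
    noncomm_ring

/-- an endomorphism in `gad a` which is not nilpotent on the generalised kernel of `a` can be used
to make the generalised kernel smaller -/
lemma exists_gker_lt [Infinite F] (a y : Module.End F E) (hy : y ∈ gad a)
    (U : Submodule F E) (hU : U = gker a)
    (B : Module.End F U) (hB : ∀ u : U, ((B u : U) : E) = y u)
    (hnil : ¬ IsNilpotent B) :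
    ∃ t : F, finrank F (gker (a + t • y)) < finrank F U := by
  classical
  have haU : U ≤ U.comap a := by
    rw [hU]; exact fun v hv => gad_apply (self_mem_gad a) hv
  have hyU : U ≤ U.comap y := by
    rw [hU]; exact fun v hv => gad_apply hy hv
  set n := finrank F E with hn
  -- operators on the quotient
  set a' := U.mapQ U a haU with ha'
  set y' := U.mapQ U y hyU with hy'
  have hinj : LinearMap.ker a' = ⊥ := by
    rw [LinearMap.ker_eq_bot']
    intro v hv
    obtain ⟨v, rfl⟩ := U.mkQ_surjective v
    have h1 : U.mkQ (a v) = 0 := hv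
    have h2 : a v ∈ U := by simpa using h1
    have h3 : v ∈ U := by
      rw [hU, mem_gker] at h2 ⊢
      obtain ⟨k, hk⟩ := h2
      exact ⟨k + 1, by rw [pow_succ, Module.End.mul_apply]; exact hk⟩
    simpa using h3
  have hrank : finrank F (LinearMap.range (a' ^ n)) = finrank F (E ⧸ U) := by
    have h1 : LinearMap.ker (a' ^ n) = ⊥ := by
      rw [LinearMap.ker_eq_bot]
      have h2 := LinearMap.ker_eq_bot.1 hinj
      induction n with
      | zero => exact fun x y h => h
      | succ n ih => rw [pow_succ]; exact ih.comp h2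
    have h2 := LinearMap.finrank_range_add_finrank_ker (a' ^ n)
    rw [h1, finrank_bot, add_zero] at h2
    exact h2
  -- restriction of a
  let aU : Module.End F U := a.restrict haU
  have hBpow : ∀ k, B ^ k ≠ 0 := fun k h => hnil ⟨k, h⟩
  have hfin1 := finite_finrank_lt a' y' n
  have hfin2 := finite_finrank_lt B aU n
  -- choose s
  have hfin3 : ((fun t : F => t⁻¹) '' {t : F | finrank F (LinearMap.range ((a' + t • y') ^ n)) <
      finrank F (LinearMap.range (a' ^ n))}).Finite := hfin1.image _
  obtain ⟨s, hs⟩ := ((hfin3.union hfin2).union (Set.finite_singleton (0 : F))).infinite_compl.nonempty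
  simp only [Set.mem_compl_iff, Set.mem_union, Set.mem_singleton_iff, not_or] at hs
  obtain ⟨⟨hs1, hs2⟩, hs3⟩ := hs
  refine ⟨s⁻¹, ?_⟩
  set t := s⁻¹ with ht
  have ht0 : t ≠ 0 := inv_ne_zero hs3
  have h1 : ¬ finrank F (LinearMap.range ((a' + t • y') ^ n)) <
      finrank F (LinearMap.range (a' ^ n)) := by
    intro h
    exact hs1 ⟨t, h, inv_inv s⟩
  rw [hrank] at h1
  set c := a + t • y with hc
  have hcU : U ≤ U.comap c := by
    intro v hv
    change a v + t • y v ∈ U
    exact add_mem (haU hv) (U.smul_mem _ (hyU hv))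
  -- a nonzero vector of U in the range of c^n
  have h2 : ¬ finrank F (LinearMap.range ((B + s • aU) ^ n)) <
      finrank F (LinearMap.range (B ^ n)) := hs2
  have h3 : (B + s • aU) ^ n ≠ 0 := by
    intro h
    rw [h, LinearMap.range_zero, finrank_bot] at h2
    apply h2
    have : Nontrivial (LinearMap.range (B ^ n)) := by
      rw [Submodule.nontrivial_iff_ne_bot]
      intro h4
      exact hBpow n (LinearMap.range_eq_bot.1 h4)
    exact finrank_pos
  obtain ⟨u, hu⟩ : ∃ u : U, ((B + s • aU) ^ n) u ≠ 0 := by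
    by_contra hcon
    push Not at hcon
    exact h3 (LinearMap.ext hcon)
  have hcpow : ∀ k, ∀ u : U, (c ^ k) (u : E) = t ^ k • ((((B + s • aU) ^ k) u : U) : E) := by
    intro k
    induction k with
    | zero => intro u; simp
    | succ k ih =>
      intro u
      rw [pow_succ, Module.End.mul_apply]
      have h4 : c (u : E) = ((t • (B + s • aU) u : U) : E) := by
        have h5 : ((aU u : U) : E) = a u := rfl
        simp only [hc, LinearMap.add_apply, LinearMap.smul_apply, Submodule.coe_smul,
          Submodule.coe_add, smul_add, hB, h5]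
        rw [smul_smul, ht, inv_mul_cancel₀ hs3, one_smul, add_comm]
      rw [h4, ih, map_smul, Submodule.coe_smul, smul_smul, pow_succ t, pow_succ (B + s • aU),
        Module.End.mul_apply]
  have hmem : (c ^ n) (u : E) ∈ LinearMap.range (c ^ n) ⊓ U := by
    refine ⟨⟨u, rfl⟩, ?_⟩
    rw [hcpow]
    exact Submodule.smul_mem _ _ (Subtype.mem _)
  have hne : (c ^ n) (u : E) ≠ 0 := by
    rw [hcpow]
    exact smul_ne_zero (pow_ne_zero _ ht0) (fun h => hu (Subtype.ext h))
  -- the quotient part
  have hcq : U.mapQ U c hcU = a' + t • y' := by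
    ext v
    rfl
  have hcqpow : ∀ k, ∀ v, ((a' + t • y') ^ k) (U.mkQ v) = U.mkQ ((c ^ k) v) := by
    intro k
    induction k with
    | zero => intro v; rfl
    | succ k ih =>
      intro v
      rw [pow_succ, Module.End.mul_apply, pow_succ, Module.End.mul_apply, ← ih]
      rfl
  have h5 : finrank F (E ⧸ U) ≤ finrank F ((LinearMap.range (c ^ n)).map U.mkQ) := by
    refine (not_lt.1 h1).trans ?_
    apply Submodule.finrank_mono
    rintro _ ⟨v, rfl⟩
    obtain ⟨v, rfl⟩ := U.mkQ_surjective v
    rw [hcqpow]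
    exact ⟨(c ^ n) v, ⟨v, rfl⟩, rfl⟩
  have h6 : finrank F ((LinearMap.range (c ^ n)).map U.mkQ) +
      finrank F (LinearMap.range (c ^ n) ⊓ U : Submodule F E) =
      finrank F (LinearMap.range (c ^ n)) := by
    have h7 := LinearMap.finrank_range_add_finrank_ker (U.mkQ.domRestrict (LinearMap.range (c ^ n)))
    rw [LinearMap.range_domRestrict, LinearMap.ker_domRestrict, Submodule.ker_mkQ] at h7
    rw [← h7]
    congr 1
    rw [← Submodule.map_comap_subtype, Submodule.finrank_map_subtype_eq]
  have h8 : 0 < finrank F (LinearMap.range (c ^ n) ⊓ U : Submodule F E) := by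
    have : Nontrivial (LinearMap.range (c ^ n) ⊓ U : Submodule F E) := by
      rw [Submodule.nontrivial_iff_ne_bot]
      intro h
      rw [h] at hmem
      exact hne (by simpa using hmem)
    exact finrank_pos
  have h9 : gker c = LinearMap.ker (c ^ n) := by
    ext v
    rw [mem_gker', LinearMap.mem_ker]
  have h10 := LinearMap.finrank_range_add_finrank_ker (c ^ n)
  have h11 := Submodule.finrank_quotient_add_finrank U
  rw [h9]
  omega

end fitting

end Pool.Agent.H66.Edm
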