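import Pool.Agent.H66.Edm.Nil

set_option autoImplicit false

namespace Pool.Agent.H66.Edm

open Module LieModule

attribute [local instance 100] LieRing.ofAssociativeRing

section sh

variable {F U : Type} [Field F] [AddCommGroup U] [Module F U] {m : ℕ}

/-- the operator `A` composed with the shift by `i` on `Z/m`-sequences -/
def sh (i : ZMod m) : Module.End F U →ₗ[F] Module.End F (ZMod m → U) where
  toFun A :=
    { toFun := fun v j => A (v (j - i))
      map_add' := fun v w => by ext j; simp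
      map_smul' := fun c v => by ext j; simp }
  map_add' A B := by ext v j; simp
  map_smul' c A := by ext v j; simp

lemma sh_apply (i : ZMod m) (A : Module.End F U) (v : ZMod m → U) (j : ZMod m) :
    sh i A v j = A (v (j - i)) := rfl

lemma sh_mul (i j : ZMod m) (A B : Module.End F U) : sh i A * sh j B = sh (i + j) (A * B) := by
  refine LinearMap.ext fun v => funext fun k => ?_
  simp only [Module.End.mul_apply, sh_apply]
  rw [sub_sub]

lemma sh_lie (i j : ZMod m) (A B : Module.End F U) :
    ⁅sh i A, sh j B⁆ = sh (i + j) (A * B - B * A) := by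
  rw [Ring.lie_def, sh_mul, sh_mul, add_comm j i, map_sub]

lemma sh_pow_one (A : Module.End F U) (n : ℕ) :
    (sh (1 : ZMod m) A) ^ n = sh (n : ZMod m) (A ^ n) := by
  induction n with
  | zero => ext v k; simp [sh_apply]
  | succ n ih => rw [pow_succ, ih, sh_mul, pow_succ]; simp

lemma sh_injective (i : ZMod m) {A B : Module.End F U} (h : sh i A = sh i B) : A = B := by
  ext u
  have := congrFun (LinearMap.congr_fun h (fun _ => u)) 0
  simpa [sh_apply] using this

lemma trace_sh [NeZero m] [FiniteDimensional F U] (k : ZMod m) (hk : k ≠ 0)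
    (C : Module.End F U) : LinearMap.trace F (ZMod m → U) (sh k C) = 0 := by
  classical
  let P : ZMod m → Module.End F (ZMod m → U) := fun j =>
    { toFun := fun v i => if i = j then v i else 0
      map_add' := fun v w => by ext i; by_cases h : i = j <;> simp [h]
      map_smul' := fun c v => by ext i; by_cases h : i = j <;> simp [h] }
  have hP : ∀ (j : ZMod m) (v : ZMod m → U) (i : ZMod m), P j v i = if i = j then v i else 0 :=
    fun _ _ _ => rfl
  have h1 : sh k C = ∑ j, (sh k C) * P j * P j := by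
    refine LinearMap.ext fun v => funext fun i => ?_
    rw [LinearMap.sum_apply, Finset.sum_apply, Finset.sum_eq_single (i - k)]
    · simp only [Module.End.mul_apply, sh_apply, hP, if_true]
    · intro b _ hb
      simp only [Module.End.mul_apply, sh_apply, hP]
      rw [if_neg (Ne.symm hb), map_zero]
    · simp
  rw [h1, map_sum]
  refine Finset.sum_eq_zero fun j _ => ?_
  rw [LinearMap.trace_mul_comm]
  have h2 : P j * (sh k C * P j) = 0 := by
    refine LinearMap.ext fun v => funext fun i => ?_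
    simp only [Module.End.mul_apply, hP, sh_apply]
    by_cases h : i = j
    · subst h
      have : i - k ≠ i := by
        intro h
        exact hk (by simpa using h)
      simp [this]
    · simp [h]
  rw [h2, map_zero]

end sh

/-- **Nil graded families of operators.** -/
theorem nil_family {F U : Type} [Field F] [CharZero F] [AddCommGroup U] [Module F U]
    [FiniteDimensional F U] {m : ℕ} [NeZero m] (h : ZMod m → Submodule F (Module.End F U))
    (hbr : ∀ i j, ∀ A ∈ h i, ∀ B ∈ h j, A * B - B * A ∈ h (i + j))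
    (hnil : ∀ x ∈ h 1, IsNilpotent x) :
    ∃ b ∈ h 1, ∃ W ≤ h 1, (∀ x ∈ h 1, ∃ κ ∈ h 0, ∃ w ∈ W, x = κ * b - b * κ + w) ∧
      ∃ (k : ℕ) (S : ℕ → Submodule F U), S 0 = ⊥ ∧ S k = ⊤ ∧
        (∀ x ∈ h 1, ∀ j, ∀ v ∈ S j, x v ∈ S j) ∧
        (∀ w ∈ W, ∀ j, ∀ v ∈ S (j + 1), w v ∈ S j) := by
  classical
  let Lam : Submodule F (Module.End F (ZMod m → U)) := ⨆ i, (h i).map (sh i)
  have hLam : ∀ x ∈ Lam, ∀ y ∈ Lam, ⁅x, y⁆ ∈ Lam := by
    intro x hx y hy
    induction hx using Submodule.iSup_induction' with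
    | zero => rw [zero_lie]; exact zero_mem _
    | add a b _ _ ha hb => rw [add_lie]; exact add_mem ha hb
    | mem i a ha =>
      induction hy using Submodule.iSup_induction' with
      | zero => rw [lie_zero]; exact zero_mem _
      | add a b _ _ ha hb => rw [lie_add]; exact add_mem ha hb
      | mem j b hb =>
        obtain ⟨A, hA, rfl⟩ := ha
        obtain ⟨B, hB, rfl⟩ := hb
        rw [sh_lie]
        exact Submodule.mem_iSup_of_mem (i + j) ⟨_, hbr i j A hA B hB, rfl⟩
  let L : LieSubalgebra F (Module.End F (ZMod m → U)) :=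
    { Lam with lie_mem' := fun {x y} hx hy => hLam x hx y hy }
  have hmemL : ∀ i, ∀ A ∈ h i, sh i A ∈ L := fun i A hA =>
    Submodule.mem_iSup_of_mem (p := fun i => (h i).map (sh i)) i ⟨A, hA, rfl⟩
  let G : ZMod m → Submodule F L := fun i => ((h i).map (sh i)).comap L.toSubmodule.subtype
  have hGmem : ∀ i (x : L), x ∈ G i ↔ ∃ A ∈ h i, sh i A = (x : Module.End F (ZMod m → U)) :=
    fun i x => Iff.rfl
  have hG : ⨆ i, G i = ⊤ := by
    rw [eq_top_iff]
    have key : ∀ x ∈ ⨆ i, (h i).map (sh i), ∀ hx : x ∈ L, (⟨x, hx⟩ : L) ∈ ⨆ i, G i := by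
      intro x hx
      induction hx using Submodule.iSup_induction' with
      | zero => intro _; exact zero_mem _
      | add a b ha hb ha' hb' =>
        intro hab
        exact add_mem (ha' ha) (hb' hb)
      | mem i a ha => intro _; exact Submodule.mem_iSup_of_mem i ha
    rintro ⟨x, hx⟩ _
    exact key x hx hx
  have hlie : ∀ i j, ∀ x ∈ G i, ∀ y ∈ G j, ⁅x, y⁆ ∈ G (i + j) := by
    rintro i j x ⟨A, hA, hx⟩ y ⟨B, hB, hy⟩
    refine ⟨A * B - B * A, hbr i j A hA B hB, ?_⟩
    rw [← sh_lie, hx, hy]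
    rfl
  have htoEnd : ∀ x : L, toEnd F L (ZMod m → U) x = (x : Module.End F (ZMod m → U)) := by
    intro x
    rfl
  have htr : ∀ i j, i + j ≠ 0 → ∀ x ∈ G i, ∀ y ∈ G j,
      traceForm F L (ZMod m → U) x y = 0 := by
    rintro i j hij x ⟨A, hA, hx⟩ y ⟨B, hB, hy⟩
    rw [traceForm_apply_apply, htoEnd, htoEnd]
    have hx' : (x : Module.End F (ZMod m → U)) = sh i A := hx.symm
    have hy' : (y : Module.End F (ZMod m → U)) = sh j B := hy.symm
    rw [hx', hy']
    have : sh i A ∘ₗ sh j B = sh (i + j) (A * B) := sh_mul i j A B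
    rw [this]
    exact trace_sh (i + j) hij _
  have hnilp : ∀ x ∈ G 1, IsNilpotent (toEnd F L (ZMod m → U) x) := by
    rintro x ⟨A, hA, hx⟩
    obtain ⟨n, hn⟩ := hnil A hA
    refine ⟨n, ?_⟩
    have hx' : (x : Module.End F (ZMod m → U)) = sh 1 A := hx.symm
    rw [htoEnd, hx', sh_pow_one, hn, map_zero]
  obtain ⟨b, hb, W, hW, hdec, k, S, hS0, hSk, hSW⟩ :=
    graded_nil (F := F) (L := L) (M := ZMod m → U) G hG hlie htr hnilp
  obtain ⟨b₀, hb₀, hbb⟩ := hb
  let W₀ : Submodule F (Module.End F U) :=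
    { carrier := {w | ∃ hw : w ∈ h 1, (⟨sh 1 w, hmemL 1 w hw⟩ : L) ∈ W}
      add_mem' := by
        rintro a b ⟨ha, ha'⟩ ⟨hb, hb'⟩
        refine ⟨add_mem ha hb, ?_⟩
        have := add_mem ha' hb'
        convert this using 1
        ext1
        simp
      zero_mem' := by
        refine ⟨zero_mem _, ?_⟩
        convert zero_mem W using 1
        ext1
        simp
      smul_mem' := by
        rintro c a ⟨ha, ha'⟩
        refine ⟨Submodule.smul_mem _ c ha, ?_⟩
        have := Submodule.smul_mem _ c ha'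
        convert this using 1
        ext1
        simp }
  refine ⟨b₀, hb₀, W₀, fun w hw => hw.1, ?_, k,
    fun j => ⨆ i, ((S j : LieSubmodule F L (ZMod m → U)) : Submodule F (ZMod m → U)).map
      (LinearMap.proj i), ?_, ?_, ?_, ?_⟩
  · intro x hx
    obtain ⟨κ, ⟨κ₀, hκ₀, hκκ⟩, w, hw, hxw⟩ := hdec ⟨sh 1 x, hmemL 1 x hx⟩ ⟨x, hx, rfl⟩
    obtain ⟨w₀, hw₀, hww⟩ := hW hw
    refine ⟨κ₀, hκ₀, w₀, ⟨hw₀, ?_⟩, ?_⟩
    · convert hw using 1
      exact Subtype.ext hww
    · apply sh_injective (1 : ZMod m)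
      have h1 := congrArg (fun z : L => (z : Module.End F (ZMod m → U))) hxw
      simp only at h1
      rw [h1]
      have h2 : ((⁅κ, b⁆ + w : L) : Module.End F (ZMod m → U)) =
          ⁅(κ : Module.End F (ZMod m → U)), (b : Module.End F (ZMod m → U))⁆ +
            (w : Module.End F (ZMod m → U)) := rfl
      have hκ' : (κ : Module.End F (ZMod m → U)) = sh 0 κ₀ := hκκ.symm
      have hb' : (b : Module.End F (ZMod m → U)) = sh 1 b₀ := hbb.symm
      have hw' : (w : Module.End F (ZMod m → U)) = sh 1 w₀ := hww.symm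
      rw [h2, hκ', hb', hw', sh_lie, zero_add, map_add]
  · simp only [hS0]
    simp
  · simp only [hSk, LieSubmodule.top_toSubmodule, Submodule.map_top]
    rw [eq_top_iff]
    intro u _
    exact Submodule.mem_iSup_of_mem (0 : ZMod m) ⟨fun _ => u, rfl⟩
  · intro x hx j v hv
    simp only at hv ⊢
    induction hv using Submodule.iSup_induction' with
    | zero => rw [map_zero]; exact zero_mem _
    | add a b _ _ ha hb => rw [map_add]; exact add_mem ha hb
    | mem i a ha =>
      obtain ⟨u, hu, rfl⟩ := ha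
      refine Submodule.mem_iSup_of_mem (i + 1) ⟨sh 1 x u, ?_, ?_⟩
      · have h1 : (⟨sh 1 x, hmemL 1 x hx⟩ : L) = ⟨sh 1 x, hmemL 1 x hx⟩ := rfl
        have h2 := (S j).lie_mem (x := (⟨sh 1 x, hmemL 1 x hx⟩ : L)) hu
        exact h2
      · simp [sh_apply]
  · rintro w ⟨hw, hw'⟩ j v hv
    simp only at hv ⊢
    induction hv using Submodule.iSup_induction' with
    | zero => rw [map_zero]; exact zero_mem _
    | add a b _ _ ha hb => rw [map_add]; exact add_mem ha hb
    | mem i a ha =>
      obtain ⟨u, hu, rfl⟩ := ha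
      refine Submodule.mem_iSup_of_mem (i + 1) ⟨sh 1 w u, ?_, ?_⟩
      · exact hSW _ hw' j u hu
      · simp [sh_apply]

end Pool.Agent.H66.Edm
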