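import Mathlib

set_option autoImplicit false

namespace Pool.Agent.H66.Edm

open Module

section trace

variable {F M : Type*} [Field F] [AddCommGroup M] [Module F M] [FiniteDimensional F M]

/-- trace of an endomorphism preserving a subspace -/
lemma trace_eq_trace_add_trace (W : Submodule F M) (e : M →ₗ[F] M) (he : W ≤ W.comap e) :
    LinearMap.trace F M e =
      LinearMap.trace F W (e.restrict he) + LinearMap.trace F (M ⧸ W) (W.mapQ W e he) := by
  classical
  let bW := finBasis F W
  let bQ := finBasis F (M ⧸ W)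
  let b := Basis.sumQuot bW bQ
  rw [LinearMap.trace_eq_matrix_trace F b, LinearMap.trace_eq_matrix_trace F bW,
    LinearMap.trace_eq_matrix_trace F bQ, Matrix.trace, Matrix.trace, Matrix.trace,
    Fintype.sum_sum_type]
  congr 1
  · refine Finset.sum_congr rfl fun i _ => ?_
    simp only [Matrix.diag_apply, b, LinearMap.toMatrix_apply, Basis.sumQuot_inl]
    apply Basis.sumQuot_repr_inl_of_mem
  · refine Finset.sum_congr rfl fun i _ => ?_
    simp only [Matrix.diag_apply, b, LinearMap.toMatrix_apply, Basis.sumQuot_repr_inr]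
    rw [← Basis.sumQuot_inr bW bQ i, W.mapQ_apply]
    simp

/-- in characteristic zero an endomorphism all of whose powers have trace zero is nilpotent -/
lemma isNilpotent_of_trace_pow [CharZero F] (f : Module.End F M)
    (h : ∀ k : ℕ, 1 ≤ k → LinearMap.trace F M (f ^ k) = 0) : IsNilpotent f := by
  classical
  have hint : IsIntegral F f := Algebra.IsIntegral.isIntegral f
  set μ := minpoly F f with hμ
  have hμ0 : μ ≠ 0 := minpoly.ne_zero hint
  obtain ⟨q, hq⟩ := Polynomial.exists_eq_pow_rootMultiplicity_mul_and_not_dvd μ hμ0 0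
  set a := μ.rootMultiplicity 0 with ha
  rw [Polynomial.C_0, sub_zero] at hq
  obtain ⟨hq1, hq2⟩ := hq
  have hcop : IsCoprime (Polynomial.X ^ (a + 1)) q := by
    apply IsCoprime.pow_left
    rw [(Polynomial.irreducible_X (R := F)).coprime_iff_not_dvd]
    exact hq2
  obtain ⟨u, v, huv⟩ := hcop
  set e : Module.End F M := Polynomial.aeval f (u * Polynomial.X ^ (a + 1)) with he
  have hzero : Polynomial.aeval f (Polynomial.X ^ (a + 1) * q) = 0 := by
    have : Polynomial.X ^ (a + 1) * q = Polynomial.X * μ := by
      rw [hq1]; ring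
    rw [this, map_mul, hμ, minpoly.aeval, mul_zero]
  have hidem : e * e = e := by
    have h1 : u * Polynomial.X ^ (a + 1) * (u * Polynomial.X ^ (a + 1)) =
        u * Polynomial.X ^ (a + 1) - u * v * (Polynomial.X ^ (a + 1) * q) := by
      have : v * q = 1 - u * Polynomial.X ^ (a + 1) := by rw [← huv]; ring
      calc u * Polynomial.X ^ (a + 1) * (u * Polynomial.X ^ (a + 1))
          = u * Polynomial.X ^ (a + 1) - u * Polynomial.X ^ (a + 1) * (1 - u * Polynomial.X ^ (a + 1)) := by ring
        _ = _ := by rw [← this]; ring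
    rw [he, ← map_mul, h1, map_sub, map_mul (Polynomial.aeval f) (u * v), hzero, mul_zero, sub_zero]
  have htr : LinearMap.trace F M e = 0 := by
    have h1 : e = ∑ i ∈ Finset.range (u.natDegree + 1), u.coeff i • f ^ (i + (a + 1)) := by
      rw [he, map_mul, Polynomial.aeval_eq_sum_range' (lt_add_one _), map_pow, Polynomial.aeval_X,
        Finset.sum_mul]
      refine Finset.sum_congr rfl fun i _ => ?_
      rw [smul_mul_assoc, ← pow_add]
    rw [h1, map_sum]
    refine Finset.sum_eq_zero fun i _ => ?_
    rw [map_smul, h _ (by omega), smul_zero]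
  have he0 : e = 0 := LinearMap.IsIdempotentElem.eq_zero_of_trace_eq_zero hidem htr
  refine ⟨a + 1, ?_⟩
  have h2 : Polynomial.aeval f (Polynomial.X ^ (a + 1) : Polynomial F) =
      Polynomial.aeval f (Polynomial.X ^ (a + 1) * (u * Polynomial.X ^ (a + 1)) +
        v * (Polynomial.X ^ (a + 1) * q)) := by
    congr 1
    calc (Polynomial.X ^ (a + 1) : Polynomial F) = Polynomial.X ^ (a + 1) * 1 := by ring
      _ = _ := by rw [← huv]; ring
  rw [map_add, map_mul, ← he, he0, mul_zero, map_mul _ v, hzero, mul_zero, add_zero] at h2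
  simpa using h2

end trace

section poly

variable {F M : Type*} [Field F] [AddCommGroup M] [Module F M]

/-- polynomial curves in a vector space -/
def IsPoly (f : F → M) : Prop :=
  ∀ φ : Module.Dual F M, ∃ p : Polynomial F, ∀ t, φ (f t) = p.eval t

lemma IsPoly.const (v : M) : IsPoly fun _ : F => v := fun φ => ⟨Polynomial.C (φ v), by simp⟩

lemma IsPoly.add {f g : F → M} (hf : IsPoly f) (hg : IsPoly g) : IsPoly fun t => f t + g t := by
  intro φ
  obtain ⟨p, hp⟩ := hf φ
  obtain ⟨q, hq⟩ := hg φ
  exact ⟨p + q, fun t => by simp [hp, hq]⟩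

lemma IsPoly.smul {f : F → M} (hf : IsPoly f) : IsPoly fun t => t • f t := by
  intro φ
  obtain ⟨p, hp⟩ := hf φ
  exact ⟨Polynomial.X * p, fun t => by simp [hp]⟩

lemma IsPoly.map {M' : Type*} [AddCommGroup M'] [Module F M'] {f : F → M} (hf : IsPoly f)
    (A : M →ₗ[F] M') : IsPoly fun t => A (f t) := by
  intro φ
  obtain ⟨p, hp⟩ := hf (φ ∘ₗ A)
  exact ⟨p, fun t => by simpa using hp t⟩

/-- linear independence is an open condition along polynomial curves -/
lemma finite_not_linearIndependent {ι : Type*} [Finite ι] {f : ι → F → M}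
    (hf : ∀ i, IsPoly (f i)) (h0 : LinearIndependent F fun i => f i 0) :
    {t : F | ¬ LinearIndependent F fun i => f i t}.Finite := by
  classical
  have := Fintype.ofFinite ι
  -- dual functionals
  obtain ⟨g, hg⟩ : ∃ g : M →ₗ[F] (ι → F), ∀ i, g (f i 0) = Pi.single i 1 := by
    let b := Basis.span h0
    let g0 : Submodule.span F (Set.range fun i => f i 0) →ₗ[F] (ι → F) := b.equivFun.toLinearMap
    obtain ⟨g, hg⟩ := LinearMap.exists_extend g0
    refine ⟨g, fun i => ?_⟩
    have h1 : g (f i 0) = g0 (b i) := by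
      rw [← hg, LinearMap.comp_apply]
      congr 1
      simp [b, Basis.span_apply]
    rw [h1]
    ext j
    simp [g0, Pi.single_apply, eq_comm]
  have hp : ∀ i j, ∃ p : Polynomial F, ∀ t, g (f j t) i = p.eval t := fun i j =>
    hf j ((LinearMap.proj i) ∘ₗ g)
  choose p hp using hp
  let D : Polynomial F := (Matrix.of fun i j => p i j).det
  have hD : ∀ t, D.eval t = (Matrix.of fun i j => g (f j t) i).det := by
    intro t
    have := RingHom.map_det (Polynomial.evalRingHom t) (Matrix.of fun i j => p i j)
    rw [Polynomial.coe_evalRingHom] at this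
    rw [this]
    congr 1
    ext i j
    simp [hp]
  have hD0 : D ≠ 0 := by
    intro h
    have h1 := hD 0
    rw [h, Polynomial.eval_zero] at h1
    have h2 : (Matrix.of fun i j => g (f j 0) i) = (1 : Matrix ι ι F) := by
      ext i j
      simp [hg, Matrix.one_apply, Pi.single_apply]
    rw [h2, Matrix.det_one] at h1
    exact zero_ne_one h1
  refine (D.rootSet_finite F).subset ?_
  intro t ht
  rw [Set.mem_ofPred_eq] at ht
  rw [Polynomial.mem_rootSet]
  refine ⟨hD0, ?_⟩
  simp only [Polynomial.coe_aeval_eq_eval]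
  rw [hD]
  by_contra hne
  apply ht
  rw [Fintype.linearIndependent_iff]
  intro c hc
  have h1 : (Matrix.of fun i j => g (f j t) i).mulVec c = 0 := by
    ext i
    have h2 := congrArg (fun v => g v i) hc
    simp only [map_sum, map_smul, Finset.sum_apply, Pi.smul_apply, smul_eq_mul, map_zero,
      Pi.zero_apply] at h2
    simp only [Matrix.mulVec, dotProduct, Matrix.of_apply, Pi.zero_apply]
    rw [← h2]
    exact Finset.sum_congr rfl fun j _ => mul_comm _ _
  have h3 := Matrix.eq_zero_of_mulVec_eq_zero hne h1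
  intro i
  rw [h3]
  rfl

end poly

end Pool.Agent.H66.Edm
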