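import Pool.Agent.H66.Edm.Semi

set_option autoImplicit false

namespace Pool.Agent.H66.Edm

open Module LieModule

attribute [local instance 100] LieRing.ofAssociativeRing

lemma pow_finrank_eq_zero {F M : Type*} [Field F] [AddCommGroup M] [Module F M]
    [FiniteDimensional F M] (φ : Module.End F M) (h : IsNilpotent φ) : φ ^ finrank F M = 0 := by
  have h1 := φ.aeval_self_charpoly
  rw [(LinearMap.isNilpotent_iff_charpoly φ).1 h] at h1
  simpa using h1

/-- Jacobson's lemma: a commutator `ab - ba` which commutes with `b` is nilpotent -/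
lemma isNilpotent_commutator {F M : Type} [Field F] [CharZero F] [AddCommGroup M] [Module F M]
    [FiniteDimensional F M] (a b : Module.End F M) (h : Commute (a * b - b * a) b) :
    IsNilpotent (a * b - b * a) := by
  apply isNilpotent_of_trace_pow
  intro k hk
  obtain ⟨k, rfl⟩ := Nat.exists_eq_add_of_le' hk
  set z := a * b - b * a with hz
  have h1 : z ^ (k + 1) = z ^ k * a * b - b * (z ^ k * a) := by
    rw [pow_succ]
    conv_lhs => rw [hz, ← hz, mul_sub]
    rw [← mul_assoc, ← mul_assoc (z ^ k) b a, (h.pow_left k).eq, mul_assoc b]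
  rw [h1, map_sub, LinearMap.trace_mul_comm, sub_self]

section lie

variable {F L M M' : Type} [Field F] [CharZero F] [LieRing L] [LieAlgebra F L]
  [AddCommGroup M] [Module F M] [LieRingModule L M] [LieModule F L M] [FiniteDimensional F M]
  [AddCommGroup M'] [Module F M'] [LieRingModule L M'] [LieModule F L M'] [FiniteDimensional F M']

/-- the radical of the trace form -/
def trRad (F L M : Type) [Field F] [LieRing L] [LieAlgebra F L]
    [AddCommGroup M] [Module F M] [LieRingModule L M] [LieModule F L M] : LieIdeal F L where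
  carrier := {z | ∀ w, traceForm F L M z w = 0}
  add_mem' := by
    intro a b ha hb w
    rw [map_add, LinearMap.add_apply, ha w, hb w, add_zero]
  zero_mem' := by
    intro w
    simp
  smul_mem' := by
    intro c a ha w
    rw [map_smul, LinearMap.smul_apply, ha w, smul_zero]
  lie_mem := by
    intro x z hz w
    rw [traceForm_comm, ← traceForm_apply_lie_apply, traceForm_comm]
    exact hz _

lemma mem_trRad {z : L} : z ∈ trRad F L M ↔ ∀ w, traceForm F L M z w = 0 := Iff.rfl

lemma commute_of_lie {x y : L} (h : toEnd F L M ⁅x, y⁆ = 0) :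
    Commute (toEnd F L M x) (toEnd F L M y) := by
  rw [LieHom.map_lie] at h
  exact sub_eq_zero.1 h

variable (hnil : ∀ x : L, IsNilpotent (toEnd F L M x) → IsNilpotent (toEnd F L M' x))
  (hss : ∀ I : LieIdeal F L, (∀ x ∈ I, IsNilpotent (toEnd F L M' x)) →
        ∀ x ∈ I, toEnd F L M' x = 0)

include hnil hss

lemma trRad_abelian (x y : L) (hx : x ∈ trRad F L M) (hy : y ∈ trRad F L M) :
    toEnd F L M' ⁅x, y⁆ = 0 := by
  set K := trRad F L M with hK
  have h1 : traceForm F K M = 0 := by
    ext u v
    exact u.2 v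
  have h2 : LieModule.IsNilpotent (LieAlgebra.derivedSeries F K 1) M :=
    LieModule.isNilpotent_derivedSeries_of_traceForm_eq_zero h1
  apply hss ⁅K, K⁆
  · intro z hz
    apply hnil
    refine (LieModule.isNilpotent_iff_forall' (R := F)).mp h2
      ⟨⟨z, LieSubmodule.lie_le_left K K hz⟩, ?_⟩
    rw [LieIdeal.derivedSeries_eq_derivedSeriesOfIdeal_comap, LieIdeal.mem_comap]
    exact hz
  · exact LieSubmodule.lie_mem_lie hx hy

lemma trRad_central (u x : L) (hx : x ∈ trRad F L M) :
    toEnd F L M' ⁅u, x⁆ = 0 := by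
  set K := trRad F L M with hK
  apply hss ⁅(⊤ : LieIdeal F L), K⁆
  · intro z hz
    have key : z ∈ K ∧ IsNilpotent (toEnd F L M' z) := by
      rw [← LieSubmodule.mem_toSubmodule, LieSubmodule.lieIdeal_oper_eq_linear_span'] at hz
      induction hz using Submodule.span_induction with
      | zero => exact ⟨zero_mem _, by rw [map_zero]; exact IsNilpotent.zero⟩
      | smul c a _ ha =>
        refine ⟨K.smul_mem c ha.1, ?_⟩
        rw [map_smul]
        exact ha.2.smul c
      | add a b _ _ ha hb =>
        refine ⟨add_mem ha.1 hb.1, ?_⟩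
        rw [map_add]
        exact (commute_of_lie (trRad_abelian hnil hss a b ha.1 hb.1)).isNilpotent_add ha.2 hb.2
      | mem a ha =>
        obtain ⟨v, _, k, hk, rfl⟩ := ha
        have hm : ⁅v, k⁆ ∈ K := lie_mem_right F L K v k hk
        refine ⟨hm, ?_⟩
        have hc := commute_of_lie (trRad_abelian hnil hss ⁅v, k⁆ k hm hk)
        rw [LieHom.map_lie] at hc ⊢
        exact isNilpotent_commutator _ _ hc
    exact key.2
  · exact LieSubmodule.lie_mem_lie (LieSubmodule.mem_top u) hx

lemma trRad_zero (x : L) (hx : x ∈ trRad F L M) (hx' : IsNilpotent (toEnd F L M' x)) :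
    toEnd F L M' x = 0 := by
  let I : LieIdeal F L :=
    { carrier := {z | z ∈ trRad F L M ∧ IsNilpotent (toEnd F L M' z)}
      add_mem' := by
        rintro a b ⟨ha, ha'⟩ ⟨hb, hb'⟩
        refine ⟨add_mem ha hb, ?_⟩
        rw [map_add]
        exact (commute_of_lie (trRad_abelian hnil hss a b ha hb)).isNilpotent_add ha' hb'
      zero_mem' := ⟨zero_mem _, by rw [map_zero]; exact IsNilpotent.zero⟩
      smul_mem' := by
        rintro c a ⟨ha, ha'⟩
        refine ⟨(trRad F L M).smul_mem c ha, ?_⟩
        rw [map_smul]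
        exact ha'.smul c
      lie_mem := by
        rintro u z ⟨hz, _⟩
        refine ⟨lie_mem_right F L _ u z hz, ?_⟩
        rw [trRad_central hnil hss u z hz]
        exact IsNilpotent.zero }
  exact hss I (fun z hz => hz.2) x ⟨hx, hx'⟩

/-- two elements commuting modulo the radical of the trace form commute on `M'` -/
lemma commute_of_mem_trRad (b y : L) (h : ⁅b, y⁆ ∈ trRad F L M) :
    Commute (toEnd F L M' b) (toEnd F L M' y) := by
  apply commute_of_lie
  apply trRad_zero hnil hss _ h
  have h1 := trRad_central hnil hss y ⁅b, y⁆ h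
  have h2 := commute_of_lie h1
  rw [LieHom.map_lie] at h2 ⊢
  exact isNilpotent_commutator _ _ h2.symm

end lie

/-- **Graded nil theorem.** -/
theorem graded_nil {F L M : Type} [Field F] [CharZero F] [LieRing L] [LieAlgebra F L]
    [FiniteDimensional F L]
    [AddCommGroup M] [Module F M] [LieRingModule L M] [LieModule F L M] [FiniteDimensional F M]
    {m : ℕ} (G : ZMod m → Submodule F L) (hG : ⨆ i, G i = ⊤)
    (hlie : ∀ i j, ∀ x ∈ G i, ∀ y ∈ G j, ⁅x, y⁆ ∈ G (i + j))
    (htr : ∀ i j, i + j ≠ 0 → ∀ x ∈ G i, ∀ y ∈ G j, traceForm F L M x y = 0)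
    (hnilp : ∀ x ∈ G 1, IsNilpotent (toEnd F L M x)) :
    ∃ b ∈ G 1, ∃ W ≤ G 1, (∀ x ∈ G 1, ∃ κ ∈ G 0, ∃ w ∈ W, x = ⁅κ, b⁆ + w) ∧
      ∃ (k : ℕ) (U : ℕ → LieSubmodule F L M), U 0 = ⊥ ∧ U k = ⊤ ∧
        ∀ w ∈ W, ∀ j, ∀ v ∈ U (j + 1), ⁅w, v⁆ ∈ U j := by
  classical
  obtain ⟨M', i1, i2, i3, i4, i5, hM1, hM2, hM3, k, U, hU0, hUk, hU⟩ :=
    exists_semisimplification (F := F) (L := L) (finrank F M) M le_rfl
  set K := trRad F L M with hK
  -- choice of a generic element
  let D := finrank F M' + 1
  let s : L → ℕ := fun x => ∑ k ∈ Finset.range D, finrank F (LinearMap.range ((toEnd F L M' x) ^ k))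
  have hs : ∀ x, s x ≤ D * finrank F M' := by
    intro x
    calc s x ≤ ∑ _k ∈ Finset.range D, finrank F M' :=
          Finset.sum_le_sum fun k _ => Submodule.finrank_le _
      _ = D * finrank F M' := by simp
  obtain ⟨b, hb, hmax⟩ : ∃ b ∈ G 1, ∀ x ∈ G 1, s x ≤ s b := by
    have hne : ({n | ∃ x ∈ G 1, s x = n} : Set ℕ).Nonempty := ⟨s 0, 0, zero_mem _, rfl⟩
    have hbd : BddAbove ({n | ∃ x ∈ G 1, s x = n} : Set ℕ) := by
      refine ⟨D * finrank F M', ?_⟩
      rintro _ ⟨x, _, rfl⟩
      exact hs x
    obtain ⟨b, hb, hb'⟩ := Nat.sSup_mem hne hbd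
    refine ⟨b, hb, fun x hx => ?_⟩
    rw [hb']
    exact le_csSup hbd ⟨x, hx, rfl⟩
  have hnil' : ∀ x ∈ G 1, IsNilpotent (toEnd F L M' x) := fun x hx => hM1 x (hnilp x hx)
  have hrank : ∀ x ∈ G 1, ∀ k, {t : F | finrank F (LinearMap.range ((toEnd F L M' b) ^ k)) <
      finrank F (LinearMap.range ((toEnd F L M' b + t • toEnd F L M' x) ^ k))}.Finite := by
    intro x hx k
    have hline : ∀ t : F, toEnd F L M' b + t • toEnd F L M' x = toEnd F L M' (b + t • x) := by
      intro t; rw [map_add, map_smul]
    by_cases hk : k < D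
    · have hfin : (⋃ k' ∈ Finset.range D,
          {t : F | finrank F (LinearMap.range ((toEnd F L M' b + t • toEnd F L M' x) ^ k')) <
            finrank F (LinearMap.range ((toEnd F L M' b) ^ k'))}).Finite := by
        apply Set.Finite.biUnion (Finset.finite_toSet _)
        intro k' _
        exact finite_finrank_lt _ _ k'
      refine hfin.subset ?_
      intro t ht
      by_contra hcon
      simp only [Set.mem_iUnion, not_exists, Set.mem_ofPred_eq, not_lt] at hcon
      have h1 : s b < s (b + t • x) := by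
        apply Finset.sum_lt_sum
        · intro k' hk'
          rw [← hline]
          exact hcon k' hk'
        · refine ⟨k, Finset.mem_range.2 hk, ?_⟩
          rw [← hline]
          exact ht
      have h2 := hmax (b + t • x) (add_mem hb (Submodule.smul_mem _ _ hx))
      omega
    · convert Set.finite_empty (α := F)
      ext t
      simp only [Set.mem_ofPred_eq, Set.mem_empty_iff_false, iff_false, not_lt]
      rw [hline]
      have h1 : (toEnd F L M' (b + t • x)) ^ k = 0 := by
        have h2 := hnil' (b + t • x) (add_mem hb (Submodule.smul_mem _ _ hx))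
        have h3 : (toEnd F L M' (b + t • x)) ^ (finrank F M') = 0 :=
          pow_finrank_eq_zero _ h2
        obtain ⟨c, rfl⟩ := Nat.exists_eq_add_of_le (show finrank F M' ≤ k by omega)
        rw [pow_add, h3, zero_mul]
      rw [h1, LinearMap.range_zero, finrank_bot]
      exact Nat.zero_le _
  -- orthogonality
  have horth : ∀ y ∈ G (-1), (∀ κ ∈ G 0, traceForm F L M ⁅κ, b⁆ y = 0) →
      ∀ x ∈ G 1, traceForm F L M x y = 0 := by
    intro y hy hyo x hx
    have h1 : ⁅b, y⁆ ∈ trRad F L M := by
      intro z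
      have hz : z ∈ ⨆ i, G i := by rw [hG]; exact Submodule.mem_top
      have hby : ⁅b, y⁆ ∈ G 0 := by
        have := hlie 1 (-1) b hb y hy
        rwa [add_neg_cancel] at this
      induction hz using Submodule.iSup_induction' with
      | zero => simp
      | add a c _ _ ha hc => rw [map_add, ha, hc, add_zero]
      | mem i a ha =>
        by_cases hi : i = 0
        · subst hi
          rw [traceForm_comm, ← traceForm_apply_lie_apply]
          exact hyo a ha
        · exact htr 0 i (by simpa using hi) _ hby a ha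
    have h2 := commute_of_mem_trRad hM1 hM3 b y h1
    have h3 := trace_mul_eq_zero_of_tangent (toEnd F L M' b) (toEnd F L M' x) (toEnd F L M' y)
      (hnil' b hb) h2 (hrank x hx)
    rw [← hM2 x y, traceForm_apply_apply]
    exact h3
  refine ⟨b, hb, G 1 ⊓ (K : Submodule F L), inf_le_left, ?_, k, U, hU0, hUk, ?_⟩
  · intro x hx
    let f : L →ₗ[F] Dual F (G (-1)) :=
      { toFun := fun x => (traceForm F L M x) ∘ₗ (G (-1)).subtype
        map_add' := fun x y => by ext z; simp
        map_smul' := fun c x => by ext z; simp }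
    let P : Submodule F L := (G 0).map (-(LieAlgebra.ad F L b : L →ₗ[F] L))
    have hP : ∀ p ∈ P, ∃ κ ∈ G 0, p = ⁅κ, b⁆ := by
      rintro _ ⟨κ, hκ, rfl⟩
      refine ⟨κ, hκ, ?_⟩
      simp
    have hP' : ∀ κ ∈ G 0, ⁅κ, b⁆ ∈ P := by
      intro κ hκ
      refine ⟨κ, hκ, ?_⟩
      simp
    have hmem : f x ∈ P.map f := by
      rw [← Subspace.dualCoannihilator_dualAnnihilator_eq (W := P.map f)]
      rw [Submodule.mem_dualAnnihilator]
      intro y hy
      rw [Submodule.mem_dualCoannihilator] at hy
      have := horth (y : L) y.2 (fun κ hκ => hy _ ⟨_, hP' κ hκ, rfl⟩) x hx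
      exact this
    obtain ⟨p, hp, hpx⟩ := hmem
    obtain ⟨κ, hκ, rfl⟩ := hP p hp
    refine ⟨κ, hκ, x - ⁅κ, b⁆, ⟨?_, ?_⟩, by abel⟩
    · apply sub_mem hx
      have := hlie 0 1 κ hκ b hb
      rwa [zero_add] at this
    · have h1G : x - ⁅κ, b⁆ ∈ G 1 := by
        apply sub_mem hx
        have := hlie 0 1 κ hκ b hb
        rwa [zero_add] at this
      intro z
      have hz : z ∈ ⨆ i, G i := by rw [hG]; exact Submodule.mem_top
      induction hz using Submodule.iSup_induction' with
      | zero => simp
      | add a c _ _ ha hc => rw [map_add, ha, hc, add_zero]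
      | mem i a ha =>
        by_cases hi : i = -1
        · subst hi
          have h2 := LinearMap.congr_fun hpx ⟨a, ha⟩
          have h3 : traceForm F L M ⁅κ, b⁆ a = traceForm F L M x a := h2
          rw [map_sub, LinearMap.sub_apply, h3, sub_self]
        · refine htr 1 i ?_ _ h1G a ha
          intro h
          exact hi (eq_neg_of_add_eq_zero_right h)
  · intro w hw j v hv
    exact hU w (trRad_zero hM1 hM3 w hw.2 (hnil' w hw.1)) j v hv

end Pool.Agent.H66.Edm
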