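import Pool.Agent.H66.Edm.Tangent

set_option autoImplicit false

namespace Pool.Agent.H66.Edm

open Module LieModule

section prod

variable {F L M N : Type} [Field F] [LieRing L] [LieAlgebra F L]
  [AddCommGroup M] [Module F M] [LieRingModule L M] [LieModule F L M]
  [AddCommGroup N] [Module F N] [LieRingModule L N] [LieModule F L N]

/-- the direct sum of two Lie ring modules -/
@[reducible] def prodLieRingModule (L M N : Type) [LieRing L] [AddCommGroup M] [LieRingModule L M]
    [AddCommGroup N] [LieRingModule L N] : LieRingModule L (M × N) where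
  bracket x m := (⁅x, m.1⁆, ⁅x, m.2⁆)
  add_lie x y m := by ext <;> simp
  lie_add x m n := by ext <;> simp
  leibniz_lie x y m := by ext <;> simp

end prod

section atom

variable {F L M : Type} [Field F] [LieRing L] [LieAlgebra F L]
  [AddCommGroup M] [Module F M] [LieRingModule L M] [LieModule F L M] [FiniteDimensional F M]

/-- an ideal acting by nilpotent operators on an irreducible module acts trivially -/
lemma atom_trivial (S : LieSubmodule F L M) (hS : IsAtom S) (I : LieIdeal F L)
    (hI : ∀ x ∈ I, IsNilpotent (toEnd F L S x)) : ∀ x ∈ I, ∀ v ∈ S, ⁅x, v⁆ = 0 := by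
  have hnil : LieModule.IsNilpotent I S := by
    rw [LieModule.isNilpotent_iff_forall' (R := F)]
    intro x
    exact hI x x.2
  have hnt : Nontrivial S := by
    rw [LieSubmodule.nontrivial_iff_ne_bot]
    exact hS.1
  have h1 : Nontrivial (maxTrivSubmodule F I S) :=
    LieModule.nontrivial_max_triv_of_isNilpotent F I S
  obtain ⟨⟨v, hv⟩, hne⟩ := exists_ne (0 : maxTrivSubmodule F I S)
  let S' : LieSubmodule F L M :=
    { carrier := {v | v ∈ S ∧ ∀ x ∈ I, ⁅x, v⁆ = 0}
      add_mem' := by
        rintro a b ⟨ha, ha'⟩ ⟨hb, hb'⟩
        exact ⟨add_mem ha hb, fun x hx => by rw [lie_add, ha' x hx, hb' x hx, add_zero]⟩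
      zero_mem' := ⟨zero_mem _, fun x _ => lie_zero x⟩
      smul_mem' := by
        rintro c a ⟨ha, ha'⟩
        exact ⟨S.smul_mem c ha, fun x hx => by rw [lie_smul, ha' x hx, smul_zero]⟩
      lie_mem := by
        rintro y a ⟨ha, ha'⟩
        refine ⟨S.lie_mem ha, fun x hx => ?_⟩
        rw [leibniz_lie, ha' x hx, lie_zero, add_zero]
        exact ha' _ (lie_mem_left F L I x y hx) }
  have hle : S' ≤ S := fun v hv => hv.1
  have hS' : S' = S := by
    rcases hS.le_iff.1 hle with h | h
    · exfalso
      apply hne
      have h2 : (v : M) ∈ S' := by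
        refine ⟨v.2, fun x hx => ?_⟩
        have h3 := (mem_maxTrivSubmodule F I S v).1 hv ⟨x, hx⟩
        have h4 := congrArg Subtype.val h3
        exact h4
      rw [h] at h2
      have h5 : (v : M) = 0 := by simpa using h2
      ext
      exact h5
    · exact h
  intro x hx v hv
  rw [← hS'] at hv
  exact hv.2 x hx

end atom

/-- **Semisimplification** of a finite-dimensional representation. -/
theorem exists_semisimplification {F L : Type} [Field F] [LieRing L] [LieAlgebra F L] (n : ℕ) :
    ∀ (M : Type) [AddCommGroup M] [Module F M] [LieRingModule L M] [LieModule F L M]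
      [FiniteDimensional F M], finrank F M ≤ n →
    ∃ (M' : Type) (_ : AddCommGroup M') (_ : Module F M') (_ : LieRingModule L M')
      (_ : LieModule F L M') (_ : FiniteDimensional F M'),
      (∀ x : L, IsNilpotent (toEnd F L M x) → IsNilpotent (toEnd F L M' x)) ∧
      (∀ x y : L, traceForm F L M' x y = traceForm F L M x y) ∧
      (∀ I : LieIdeal F L, (∀ x ∈ I, IsNilpotent (toEnd F L M' x)) →
        ∀ x ∈ I, toEnd F L M' x = 0) ∧
      ∃ (k : ℕ) (U : ℕ → LieSubmodule F L M), U 0 = ⊥ ∧ U k = ⊤ ∧
        ∀ x : L, toEnd F L M' x = 0 → ∀ j, ∀ v ∈ U (j + 1), ⁅x, v⁆ ∈ U j := by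
  classical
  induction n with
  | zero =>
    intro M _ _ _ _ _ hn
    have hsub : Subsingleton M := finrank_zero_iff.1 (Nat.le_zero.1 hn)
    refine ⟨M, inferInstance, inferInstance, inferInstance, inferInstance, inferInstance,
      fun _ h => h, fun _ _ => rfl, fun I _ x _ => ?_, 0, fun _ => ⊥, rfl, ?_, ?_⟩
    · ext v
      exact Subsingleton.elim _ _
    · ext v
      simp [Subsingleton.elim v 0]
    · intro x _ j v hv
      have : v = 0 := by simpa using hv
      subst this
      simp
  | succ n ih =>
    intro M _ _ _ _ _ hn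
    by_cases hsub : Subsingleton M
    · refine ⟨M, inferInstance, inferInstance, inferInstance, inferInstance, inferInstance,
        fun _ h => h, fun _ _ => rfl, fun I _ x _ => ?_, 0, fun _ => ⊥, rfl, ?_, ?_⟩
      · ext v
        exact Subsingleton.elim _ _
      · ext v
        simp [Subsingleton.elim v 0]
      · intro x _ j v hv
        have : v = 0 := by simpa using hv
        subst this
        simp
    have hnt : Nontrivial M := not_subsingleton_iff_nontrivial.1 hsub
    have hnt' : Nontrivial (LieSubmodule F L M) := by
      rw [LieSubmodule.nontrivial_iff]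
      exact hnt
    obtain ⟨S, hS⟩ := IsAtomic.exists_atom (LieSubmodule F L M)
    have hSne : S ≠ ⊥ := hS.1
    have hfin : finrank F (M ⧸ S) ≤ n := by
      have h1 := Submodule.finrank_quotient_add_finrank (S : Submodule F M)
      have h2 : 0 < finrank F (S : Submodule F M) := by
        have : Nontrivial (S : Submodule F M) := by
          have := (LieSubmodule.nontrivial_iff_ne_bot F L M).2 hSne
          exact this
        exact finrank_pos
      have h3 : finrank F (M ⧸ S) = finrank F (M ⧸ (S : Submodule F M)) := rfl
      omega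
    obtain ⟨M₁, i1, i2, i3, i4, i5, hM1, hM2, hM3, k, U, hU0, hUk, hU⟩ := ih (M ⧸ S) hfin
    let _ : LieRingModule L (S × M₁) := prodLieRingModule L S M₁
    let _ : LieModule F L (S × M₁) :=
      { smul_lie := fun c x m => by
          ext
          · change ((⁅c • x, m.1⁆ : S) : M) = ((c • ⁅x, m.1⁆ : S) : M)
            rw [smul_lie]
          · change ⁅c • x, m.2⁆ = c • ⁅x, m.2⁆
            rw [smul_lie]
        lie_smul := fun c x m => by
          ext
          · change ((⁅x, c • m.1⁆ : S) : M) = ((c • ⁅x, m.1⁆ : S) : M)
            rw [lie_smul]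
          · change ⁅x, c • m.2⁆ = c • ⁅x, m.2⁆
            rw [lie_smul] }
    have htoEnd : ∀ x : L, toEnd F L (S × M₁) x = (toEnd F L S x).prodMap (toEnd F L M₁ x) := by
      intro x
      rfl
    have hpow : ∀ (x : L) (j : ℕ), (toEnd F L (S × M₁) x) ^ j =
        ((toEnd F L S x) ^ j).prodMap ((toEnd F L M₁ x) ^ j) := by
      intro x j
      rw [htoEnd]
      induction j with
      | zero => rfl
      | succ j ih => rw [pow_succ, ih, pow_succ, pow_succ]; rfl
    refine ⟨S × M₁, inferInstance, inferInstance, inferInstance, inferInstance, inferInstance,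
      ?_, ?_, ?_, k + 1, fun j => Nat.casesOn j ⊥ fun j =>
        (U j).comap (LieSubmodule.Quotient.mk' S), rfl, ?_, ?_⟩
    · rintro x ⟨p, hp⟩
      have h1 : (toEnd F L S x) ^ p = 0 := by
        ext v
        have : (((toEnd F L S x) ^ p) v : M) = ((toEnd F L M x) ^ p) (v : M) := by
          clear hp
          induction p with
          | zero => rfl
          | succ p ih =>
            rw [pow_succ', pow_succ', Module.End.mul_apply, Module.End.mul_apply, ← ih]
            rfl
        rw [this, hp]
        rfl
      have h2 : IsNilpotent (toEnd F L (M ⧸ S) x) := by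
        refine ⟨p, ?_⟩
        ext v
        obtain ⟨v, rfl⟩ := LieSubmodule.Quotient.surjective_mk' S v
        have : ((toEnd F L (M ⧸ S) x) ^ p) (LieSubmodule.Quotient.mk' S v) =
            LieSubmodule.Quotient.mk' S (((toEnd F L M x) ^ p) v) := by
          clear hp h1
          induction p with
          | zero => rfl
          | succ p ih =>
            rw [pow_succ', pow_succ', Module.End.mul_apply, Module.End.mul_apply, ih]
            rfl
        rw [this, hp]
        simp
      obtain ⟨q, hq⟩ := hM1 x h2
      refine ⟨p + q, ?_⟩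
      rw [hpow, pow_add, pow_add, h1, hq, zero_mul, mul_zero]
      rfl
    · intro x y
      rw [traceForm_apply_apply, traceForm_apply_apply, htoEnd, htoEnd]
      have h1 : (toEnd F L S x).prodMap (toEnd F L M₁ x) ∘ₗ (toEnd F L S y).prodMap (toEnd F L M₁ y)
          = (toEnd F L S x ∘ₗ toEnd F L S y).prodMap (toEnd F L M₁ x ∘ₗ toEnd F L M₁ y) := rfl
      rw [h1, LinearMap.trace_prodMap']
      have h2 := hM2 x y
      rw [traceForm_apply_apply, traceForm_apply_apply] at h2
      rw [h2]
      have h3 := trace_eq_trace_add_trace (S : Submodule F M) (toEnd F L M x ∘ₗ toEnd F L M y)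
        (fun v hv => S.lie_mem (S.lie_mem hv))
      rw [h3]
      congr 1
      have h4 : toEnd F L (M ⧸ S) x ∘ₗ toEnd F L (M ⧸ S) y =
          ((S : Submodule F M).mapQ (S : Submodule F M) (toEnd F L M x ∘ₗ toEnd F L M y)
            (fun v hv => S.lie_mem (S.lie_mem hv)) :) := by
        apply LinearMap.ext
        intro v
        obtain ⟨v, rfl⟩ := LieSubmodule.Quotient.surjective_mk' S v
        rfl
      exact congrArg (LinearMap.trace F (M ⧸ S)) h4
    · intro I hI
      have hI1 : ∀ x ∈ I, ∀ v ∈ S, ⁅x, v⁆ = 0 := by
        apply atom_trivial S hS I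
        intro x hx
        obtain ⟨p, hp⟩ := hI x hx
        refine ⟨p, ?_⟩
        ext v
        have h1 := LinearMap.congr_fun hp (v, 0)
        rw [hpow] at h1
        have h2 := congrArg Prod.fst h1
        have h3 : ((toEnd F L S x) ^ p) v = 0 := h2
        rw [h3]
        rfl
      have hI2 : ∀ x ∈ I, toEnd F L M₁ x = 0 := by
        apply hM3 I
        intro x hx
        obtain ⟨p, hp⟩ := hI x hx
        refine ⟨p, ?_⟩
        ext v
        have h1 := LinearMap.congr_fun hp (0, v)
        rw [hpow] at h1
        exact congrArg Prod.snd h1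
      intro x hx
      rw [htoEnd, hI2 x hx]
      have : toEnd F L S x = 0 := by
        ext v
        exact hI1 x hx v v.2
      rw [this]
      rfl
    · have h1 : (U k).comap (LieSubmodule.Quotient.mk' S) = ⊤ := by
        rw [hUk]
        ext v
        simp
      exact h1
    · intro x hx j v hv
      have hx1 : toEnd F L M₁ x = 0 := by
        ext w
        have h1 := LinearMap.congr_fun hx (0, w)
        exact congrArg Prod.snd h1
      have hx2 : ∀ w ∈ S, ⁅x, w⁆ = 0 := by
        intro w hw
        have h1 := LinearMap.congr_fun hx (⟨w, hw⟩, 0)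
        have h2 := congrArg Prod.fst h1
        have h3 := congrArg Subtype.val h2
        exact h3
      rcases j with _ | j
      · have hvS : v ∈ S := by
          have h1 : v ∈ (U 0).comap (LieSubmodule.Quotient.mk' S) := hv
          rw [hU0] at h1
          have h2 : LieSubmodule.Quotient.mk' S v = 0 := by simpa using h1
          exact (LieSubmodule.Quotient.mk_eq_zero' (N := S)).1 h2
        change ⁅x, v⁆ ∈ (⊥ : LieSubmodule F L M)
        rw [hx2 v hvS]
        exact zero_mem _
      · have h1 : LieSubmodule.Quotient.mk' S v ∈ U (j + 1) := hv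
        have h2 := hU x hx1 j _ h1
        exact h2

end Pool.Agent.H66.Edm
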