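import Pool.Agent.H66.Edm.Lin

set_option autoImplicit false

namespace Pool.Agent.H66.Edm

open Module

variable {F M : Type*} [Field F] [AddCommGroup M] [Module F M]

/-- derivative of `b ↦ b ^ k` in direction `x` -/
def dpow (b x : Module.End F M) : ℕ → Module.End F M
  | 0 => 0
  | k + 1 => x * b ^ k + b * dpow b x k

lemma dpow_succ (b x : Module.End F M) (k : ℕ) :
    dpow b x (k + 1) = x * b ^ k + b * dpow b x k := rfl

lemma dpow_succ' (b x : Module.End F M) (k : ℕ) :
    dpow b x (k + 1) = b ^ k * x + dpow b x k * b := by
  induction k with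
  | zero => simp [dpow]
  | succ k ih =>
    have h1 : dpow b x (k + 1 + 1) = x * (b ^ k * b) + b * (b ^ k * x + dpow b x k * b) := by
      rw [dpow_succ, ih, pow_succ]
    have h2 : dpow b x (k + 1) * b = (x * b ^ k + b * dpow b x k) * b := by rw [dpow_succ]
    rw [h1, h2, pow_succ']
    noncomm_ring

/-- the difference quotient of `b ↦ b ^ k` -/
def qpow (b x : Module.End F M) : ℕ → F → Module.End F M
  | 0, _ => 0
  | k + 1, t => x * b ^ k + (b + t • x) * qpow b x k t

lemma pow_eq_qpow (b x : Module.End F M) (k : ℕ) (t : F) :
    (b + t • x) ^ k = b ^ k + t • qpow b x k t := by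
  induction k with
  | zero => simp [qpow]
  | succ k ih =>
    rw [pow_succ', ih, qpow, pow_succ', mul_add, smul_add, add_mul]
    simp only [smul_mul_assoc, mul_smul_comm, add_mul, smul_add]
    abel

lemma qpow_zero (b x : Module.End F M) (k : ℕ) : qpow b x k 0 = dpow b x k := by
  induction k with
  | zero => rfl
  | succ k ih => rw [qpow, ih, dpow, zero_smul, add_zero]

lemma isPoly_qpow (b x : Module.End F M) (k : ℕ) (u : M) : IsPoly fun t => qpow b x k t u := by
  induction k with
  | zero => exact IsPoly.const 0
  | succ k ih =>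
    have h : (fun t => qpow b x (k + 1) t u) =
        fun t => (x * b ^ k) u + (b (qpow b x k t u) + t • x (qpow b x k t u)) := by
      ext t
      simp [qpow]
    rw [h]
    exact (IsPoly.const _).add ((ih.map b).add (ih.map x).smul)

lemma isPoly_pow (b x : Module.End F M) (k : ℕ) (u : M) :
    IsPoly fun t : F => ((b + t • x) ^ k) u := by
  have h : (fun t : F => ((b + t • x) ^ k) u) = fun t => (b ^ k) u + t • qpow b x k t u := by
    ext t
    rw [pow_eq_qpow]
    simp
  rw [h]
  exact (IsPoly.const _).add (isPoly_qpow b x k u).smul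

variable [FiniteDimensional F M]

/-- the rank of powers is lower semicontinuous along a line -/
lemma finite_finrank_lt (b x : Module.End F M) (k : ℕ) :
    {t : F | finrank F (LinearMap.range ((b + t • x) ^ k)) <
      finrank F (LinearMap.range (b ^ k))}.Finite := by
  classical
  let w := finBasis F (LinearMap.range (b ^ k))
  choose u hu using fun i => LinearMap.mem_range.1 (w i).2
  have hli : LinearIndependent F fun i => ((b + (0 : F) • x) ^ k) (u i) := by
    have : (fun i => ((b + (0 : F) • x) ^ k) (u i)) = fun i => ((w i : LinearMap.range (b ^ k)) : M) := by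
      ext i
      rw [zero_smul, add_zero, hu]
    rw [this]
    exact w.linearIndependent.map' (Submodule.subtype _) (Submodule.ker_subtype _)
  refine (finite_not_linearIndependent (fun i => isPoly_pow b x k (u i)) hli).subset ?_
  intro t ht
  rw [Set.mem_ofPred_eq] at ht ⊢
  intro hcon
  have h1 : LinearIndependent F fun i => (⟨((b + t • x) ^ k) (u i), LinearMap.mem_range_self _ _⟩ :
      LinearMap.range ((b + t • x) ^ k)) := by
    apply LinearIndependent.of_comp (Submodule.subtype _)
    exact hcon
  have h2 := h1.fintype_card_le_finrank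
  rw [Fintype.card_fin] at h2
  omega

/-- first order condition for the constancy of the rank of `b ^ k` -/
lemma dpow_mem_range [Infinite F] (b x : Module.End F M) (k : ℕ)
    (h : {t : F | finrank F (LinearMap.range (b ^ k)) <
      finrank F (LinearMap.range ((b + t • x) ^ k))}.Finite) (u : M) (hu : (b ^ k) u = 0) :
    dpow b x k u ∈ LinearMap.range (b ^ k) := by
  classical
  by_contra hcon
  let w := finBasis F (LinearMap.range (b ^ k))
  choose v hv using fun i => LinearMap.mem_range.1 (w i).2
  let f : Option (Fin (finrank F (LinearMap.range (b ^ k)))) → F → M := fun o t =>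
    match o with
    | none => qpow b x k t u
    | some i => ((b + t • x) ^ k) (v i)
  have hf : ∀ o, IsPoly (f o) := by
    rintro (_ | i)
    · exact isPoly_qpow b x k u
    · exact isPoly_pow b x k (v i)
  have h0 : LinearIndependent F fun o => f o 0 := by
    rw [linearIndependent_option]
    constructor
    · have : ((fun o => f o 0) ∘ ((↑) : Fin _ → Option (Fin _))) =
          fun i => ((w i : LinearMap.range (b ^ k)) : M) := by
        ext i
        simp only [Function.comp_apply, f]
        rw [zero_smul, add_zero, hv]
      rw [this]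
      exact w.linearIndependent.map' (Submodule.subtype _) (Submodule.ker_subtype _)
    · simp only [f]
      rw [qpow_zero]
      intro hmem
      apply hcon
      refine (Submodule.span_le.2 ?_) hmem
      rintro _ ⟨i, rfl⟩
      simp only [Function.comp_apply, f]
      rw [zero_smul, add_zero, hv]
      exact (w i).2
  have hfin := ((finite_not_linearIndependent hf h0).union h).union (Set.finite_singleton (0 : F))
  obtain ⟨t, ht⟩ := hfin.infinite_compl.nonempty
  simp only [Set.mem_compl_iff, Set.mem_union, Set.mem_ofPred_eq, Set.mem_singleton_iff,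
    not_or, not_not, not_lt] at ht
  obtain ⟨⟨ht1, ht2⟩, ht3⟩ := ht
  have hmem : ∀ o, f o t ∈ LinearMap.range ((b + t • x) ^ k) := by
    rintro (_ | i)
    · refine ⟨t⁻¹ • u, ?_⟩
      rw [map_smul, pow_eq_qpow]
      simp only [f, LinearMap.add_apply, LinearMap.smul_apply, hu, zero_add]
      rw [smul_smul, inv_mul_cancel₀ ht3, one_smul]
    · exact ⟨v i, rfl⟩
  have h1 : LinearIndependent F fun o => (⟨f o t, hmem o⟩ :
      LinearMap.range ((b + t • x) ^ k)) := by
    apply LinearIndependent.of_comp (Submodule.subtype _)
    exact ht1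
  have h2 := h1.fintype_card_le_finrank
  rw [Fintype.card_option, Fintype.card_fin] at h2
  omega

/-- integrating the first order conditions: `x - [g, b]` lowers the kernel flag of `b` -/
lemma exists_deformation (b x : Module.End F M)
    (h : ∀ k, ∀ u, (b ^ k) u = 0 → dpow b x k u ∈ LinearMap.range (b ^ k)) (k : ℕ) :
    ∃ g : Module.End F M, ∀ j ≤ k, ∀ u, (b ^ j) u = 0 → (b ^ j) (g u) = - dpow b x j u := by
  classical
  induction k with
  | zero =>
    refine ⟨0, fun j hj u hu => ?_⟩
    obtain rfl : j = 0 := by omega
    have : u = 0 := by simpa using hu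
    subst this
    simp
  | succ k ih =>
    obtain ⟨g, hg⟩ := ih
    -- a lift on the kernel of b^(k+1)
    let K := LinearMap.ker (b ^ (k + 1))
    obtain ⟨s, hs⟩ := LinearMap.exists_rightInverse_of_surjective
      (LinearMap.rangeRestrict (b ^ (k + 1))) (LinearMap.range_rangeRestrict _)
    let r : K →ₗ[F] LinearMap.range (b ^ (k + 1)) :=
      LinearMap.codRestrict _ ((dpow b x (k + 1)) ∘ₗ K.subtype) (fun u => h (k + 1) u u.2)
    obtain ⟨g₁, hg₁⟩ := LinearMap.exists_extend (- (s ∘ₗ r))
    have hg₁' : ∀ u, (b ^ (k + 1)) u = 0 → (b ^ (k + 1)) (g₁ u) = - dpow b x (k + 1) u := by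
      intro u hu
      have h1 : g₁ u = - s (r ⟨u, hu⟩) := by
        have := LinearMap.congr_fun hg₁ ⟨u, hu⟩
        simpa using this
      have h2 : (b ^ (k + 1)) (s (r ⟨u, hu⟩)) = dpow b x (k + 1) u := by
        have h3 := LinearMap.congr_fun hs (r ⟨u, hu⟩)
        have h4 := congrArg Subtype.val h3
        have h5 : ((r ⟨u, hu⟩ : LinearMap.range (b ^ (k + 1))) : M) = dpow b x (k + 1) u := rfl
        rw [← h5]
        exact h4
      rw [h1, map_neg, h2]
    -- correct it on the kernel of b^k
    let d₀ : LinearMap.ker (b ^ k) →ₗ[F] K :=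
      LinearMap.codRestrict _ ((g - g₁) ∘ₗ (LinearMap.ker (b ^ k)).subtype) (by
        intro u
        have hu : (b ^ k) (u : M) = 0 := u.2
        have hu' : (b ^ (k + 1)) (u : M) = 0 := by
          rw [pow_succ', Module.End.mul_apply, hu, map_zero]
        have h1 := hg₁' u hu'
        have h2 := hg k le_rfl u hu
        rw [LinearMap.mem_ker]
        simp only [LinearMap.comp_apply, Submodule.coe_subtype, LinearMap.sub_apply, map_sub]
        rw [h1, pow_succ', Module.End.mul_apply, h2, dpow]
        simp only [LinearMap.add_apply, Module.End.mul_apply, hu, map_zero, zero_add, map_neg]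
        abel)
    obtain ⟨d, hd⟩ := LinearMap.exists_extend d₀
    refine ⟨g₁ + K.subtype ∘ₗ d, fun j hj u hu => ?_⟩
    rcases Nat.lt_or_ge k j with hkj | hkj
    · obtain rfl : j = k + 1 := by omega
      have h1 : (b ^ (k + 1)) ((d u : K) : M) = 0 := (d u).2
      simp only [LinearMap.add_apply, LinearMap.comp_apply, Submodule.coe_subtype, map_add]
      rw [hg₁' u hu, h1, add_zero]
    · have huk : (b ^ k) u = 0 := by
        obtain ⟨i, rfl⟩ := Nat.exists_eq_add_of_le hkj
        rw [add_comm, pow_add, Module.End.mul_apply, hu, map_zero]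
      have h1 : ((d u : K) : M) = g u - g₁ u := by
        have := LinearMap.congr_fun hd ⟨u, huk⟩
        have := congrArg Subtype.val this
        simpa [d₀] using this
      simp only [LinearMap.add_apply, LinearMap.comp_apply, Submodule.coe_subtype]
      rw [h1, add_sub_cancel]
      exact hg j hkj u hu

/-- **Tangent lemma.**  If the ranks of all powers do not increase along the line `b + t x`, and `b`
is nilpotent, then `x` is trace-orthogonal to the centraliser of `b`. -/
theorem trace_mul_eq_zero_of_tangent [Infinite F] (b x y : Module.End F M) (hb : IsNilpotent b)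
    (hy : Commute b y)
    (h : ∀ k, {t : F | finrank F (LinearMap.range (b ^ k)) <
      finrank F (LinearMap.range ((b + t • x) ^ k))}.Finite) :
    LinearMap.trace F M (x * y) = 0 := by
  obtain ⟨p, hp⟩ := hb
  obtain ⟨g, hg⟩ := exists_deformation b x (fun k u hu => dpow_mem_range b x k (h k) u hu) p
  set z := x - (g * b - b * g) with hz
  -- z lowers the kernel flag
  have hlow : ∀ j, j < p → ∀ u, (b ^ (j + 1)) u = 0 → (b ^ j) (z u) = 0 := by
    intro j hj u hu
    have h1 := hg (j + 1) hj u hu
    have h2 := hg j (by omega) (b u) (by rw [← Module.End.mul_apply, ← pow_succ]; exact hu)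
    have h3 : (b ^ j) (b (g u)) = - dpow b x (j + 1) u := by
      rw [← h1, pow_succ, Module.End.mul_apply]
    have h4 := LinearMap.congr_fun (dpow_succ' b x j) u
    simp only [LinearMap.add_apply, Module.End.mul_apply] at h4
    simp only [hz, LinearMap.sub_apply, Module.End.mul_apply, map_sub]
    rw [h2, h3, h4]
    abel
  have hzy : IsNilpotent (z * y) := by
    refine ⟨p, ?_⟩
    have key : ∀ i, i ≤ p → ∀ u, (b ^ (p - i)) (((z * y) ^ i) u) = 0 := by
      intro i
      induction i with
      | zero => intro _ u; simp [hp]
      | succ i ih =>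
        intro hi u
        have h1 := ih (by omega) u
        have h2 : p - i = (p - (i + 1)) + 1 := by omega
        rw [pow_succ', Module.End.mul_apply, Module.End.mul_apply]
        apply hlow _ (by omega)
        rw [← h2]
        have h3 : (b ^ (p - i)) (y (((z * y) ^ i) u)) = y ((b ^ (p - i)) (((z * y) ^ i) u)) := by
          have := LinearMap.congr_fun (hy.pow_left (p - i)).eq (((z * y) ^ i) u)
          simpa [Module.End.mul_apply] using this
        rw [h3, h1, map_zero]
    ext u
    have := key p le_rfl u
    simpa using this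
  have h1 : x * y = z * y + (g * b - b * g) * y := by rw [hz]; noncomm_ring
  rw [h1, map_add, (LinearMap.isNilpotent_trace_of_isNilpotent hzy).eq_zero, zero_add]
  have h2 : (g * b - b * g) * y = g * y * b - b * (g * y) := by
    rw [sub_mul, mul_assoc, hy.eq]
    noncomm_ring
  rw [h2, map_sub, LinearMap.trace_mul_comm, sub_self]

end Pool.Agent.H66.Edm
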